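import Pool.Agent.N578.Geo.Decode

/-!
# The reduction on adjacency matrices
-/

set_option autoImplicit false

namespace Pool.Agent.N578.Geo

open SimpleGraph

/-- Codes of vertices: a point with the empty list, or a point with a line (a list of points). -/
abbrev Cd : Type := (ℕ × ℕ) × List (ℕ × ℕ)

/-- An entry of a matrix. -/
def ent (M : List (List Bool)) (i j : ℕ) : Bool := (M.getD i []).getD j false

/-- All pairs of elements of a list. -/
def prs {A : Type} (l : List A) : List (A × A) := l.flatMap fun p => l.map fun q => (p, q)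

/-- The order of the points. -/
def ltB (p q : ℕ × ℕ) : Bool := decide (p.1 < q.1) || (decide (p.1 = q.1) && decide (p.2 < q.2))

/-- The block of an edge. -/
def eb (p : ℕ × ℕ) : List (ℕ × ℕ) := [(p.1, p.1), (p.1, p.2), (p.2, p.1), (p.2, p.2)]

/-- The private blocks. -/
def vb (m i : ℕ) : List (ℕ × ℕ) := [(i, i), (i, m), (m, i)]

/-- The blocks of edges. -/
def ebs (M : List (List Bool)) : List (List (ℕ × ℕ)) :=
  ((prs (List.range M.length)).filter fun p => decide (p.1 < p.2) && ent M p.1 p.2).map eb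

/-- The list of blocks. -/
def blocksC (M : List (List Bool)) : List (List (ℕ × ℕ)) :=
  ebs M ++ ((List.range M.length).map (vb M.length) ++ (List.range M.length).map (vb (M.length + 1)))

/-- The two points are in a common block. -/
def inBlk (B : List (List (ℕ × ℕ))) (p q : ℕ × ℕ) : Bool :=
  B.any fun T => decide (p ∈ T) && decide (q ∈ T)

/-- The list of points. -/
def ptsC (M : List (List Bool)) : List (ℕ × ℕ) := prs (List.range (M.length + 3))

/-- The list of lines which are pairs. -/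
def pairC (M : List (List Bool)) : List (List (ℕ × ℕ)) :=
  ((prs (ptsC M)).filter fun pq => ltB pq.1 pq.2 && !(inBlk (blocksC M) pq.1 pq.2)).map
    fun pq => [pq.1, pq.2]

/-- The list of lines. -/
def linesC (M : List (List Bool)) : List (List (ℕ × ℕ)) := blocksC M ++ pairC M

/-- The list of vertices. -/
def vsC (M : List (List Bool)) : List Cd :=
  (ptsC M).map (fun p => (p, [])) ++ (linesC M).flatMap fun l => l.map fun p => (p, l)

/-- Adjacency of vertices. -/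
def adC (x y : Cd) : Bool :=
  (decide (x.1 = y.1) && (decide (x.2 = []) ^^ decide (y.2 = []))) ||
    (!(decide (x.2 = [])) && (decide (x.2 = y.2) && !(decide (x.1 = y.1))))

/-- The new adjacency matrix. -/
def matC (M : List (List Bool)) : List (List Bool) :=
  (vsC M).map fun u => (vsC M).map fun w => adC u w

/-! ### Basic facts -/

theorem mem_prs {A : Type} {l : List A} {p : A × A} : p ∈ prs l ↔ p.1 ∈ l ∧ p.2 ∈ l := by
  obtain ⟨a, b⟩ := p
  simp [prs]

theorem nodup_prs {A : Type} {l : List A} (h : l.Nodup) : (prs l).Nodup := h.product h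

theorem ltB_iff {p q : ℕ × ℕ} : ltB p q = true ↔ p.1 < q.1 ∨ (p.1 = q.1 ∧ p.2 < q.2) := by
  simp [ltB]

theorem mem_ebs {M : List (List Bool)} {l : List (ℕ × ℕ)} : l ∈ ebs M ↔
    ∃ i j, i < j ∧ j < M.length ∧ ent M i j = true ∧ l = eb (i, j) := by
  simp only [ebs, List.mem_map, List.mem_filter, mem_prs, List.mem_range, Bool.and_eq_true,
    decide_eq_true_eq, Prod.exists]
  constructor
  · rintro ⟨i, j, ⟨⟨h1, h2⟩, h3, h4⟩, rfl⟩
    exact ⟨i, j, h3, h2, h4, rfl⟩
  · rintro ⟨i, j, h3, h2, h4, rfl⟩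
    exact ⟨i, j, ⟨⟨by omega, h2⟩, h3, h4⟩, rfl⟩

theorem mem_blocksC {M : List (List Bool)} {l : List (ℕ × ℕ)} : l ∈ blocksC M ↔
    (∃ i j, i < j ∧ j < M.length ∧ ent M i j = true ∧ l = eb (i, j)) ∨
      (∃ i, i < M.length ∧ (l = vb M.length i ∨ l = vb (M.length + 1) i)) := by
  simp only [blocksC, List.mem_append, mem_ebs, List.mem_map, List.mem_range]
  constructor
  · rintro (h | ⟨i, hi, rfl⟩ | ⟨i, hi, rfl⟩)
    · exact Or.inl h
    · exact Or.inr ⟨i, hi, Or.inl rfl⟩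
    · exact Or.inr ⟨i, hi, Or.inr rfl⟩
  · rintro (h | ⟨i, hi, rfl | rfl⟩)
    · exact Or.inl h
    · exact Or.inr (Or.inl ⟨i, hi, rfl⟩)
    · exact Or.inr (Or.inr ⟨i, hi, rfl⟩)

theorem mem_ptsC {M : List (List Bool)} {p : ℕ × ℕ} :
    p ∈ ptsC M ↔ p.1 < M.length + 3 ∧ p.2 < M.length + 3 := by
  simp [ptsC, mem_prs]

theorem mem_pairC {M : List (List Bool)} {l : List (ℕ × ℕ)} : l ∈ pairC M ↔
    ∃ p q, p ∈ ptsC M ∧ q ∈ ptsC M ∧ ltB p q = true ∧ (∀ T ∈ blocksC M, ¬ (p ∈ T ∧ q ∈ T)) ∧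
      l = [p, q] := by
  simp only [pairC, List.mem_map, List.mem_filter, mem_prs, inBlk, Bool.and_eq_true,
    Bool.not_eq_true', List.any_eq_false, decide_eq_true_eq]
  constructor
  · rintro ⟨⟨p, q⟩, ⟨⟨h1, h2⟩, h3, h4⟩, rfl⟩
    exact ⟨p, q, h1, h2, h3, h4, rfl⟩
  · rintro ⟨p, q, h1, h2, h3, h4, rfl⟩
    exact ⟨(p, q), ⟨⟨h1, h2⟩, h3, h4⟩, rfl⟩

theorem ltB_trans {p q r : ℕ × ℕ} (h1 : ltB p q = true) (h2 : ltB q r = true) :
    ltB p r = true := by
  rw [ltB_iff] at *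
  omega

theorem sorted_linesC {M : List (List Bool)} {l : List (ℕ × ℕ)} (h : l ∈ linesC M) :
    l.Pairwise fun p q => ltB p q = true := by
  rcases List.mem_append.1 h with h | h
  · rcases mem_blocksC.1 h with ⟨i, j, h1, h2, h3, rfl⟩ | ⟨i, hi, rfl | rfl⟩
    · simp [eb, ltB, h1]
    · simp [vb, ltB, hi]
    · simp [vb, ltB, Nat.lt_succ_of_lt hi]
  · obtain ⟨p, q, h1, h2, h3, h4, rfl⟩ := mem_pairC.1 h
    simp [h3]

theorem nodup_of_sorted {l : List (ℕ × ℕ)} (h : l.Pairwise fun p q => ltB p q = true) :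
    l.Nodup := by
  refine h.imp ?_
  rintro p q h rfl
  rw [ltB_iff] at h
  omega

theorem eq_of_sorted {l m : List (ℕ × ℕ)} (hl : l.Pairwise fun p q => ltB p q = true)
    (hm : m.Pairwise fun p q => ltB p q = true) (h : ∀ p, p ∈ l ↔ p ∈ m) : l = m := by
  refine List.Perm.eq_of_pairwise ?_ hl hm
    ((List.perm_ext_iff_of_nodup (nodup_of_sorted hl) (nodup_of_sorted hm)).2 h)
  intro p q _ _ h1 h2
  have := ltB_trans h1 h2
  rw [ltB_iff] at this
  omega

theorem nodup_blocksC (M : List (List Bool)) : (blocksC M).Nodup := by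
  unfold blocksC
  rw [List.nodup_append, List.nodup_append]
  refine ⟨?_, ⟨?_, ?_, ?_⟩, ?_⟩
  · refine List.Nodup.map_on ?_ ((nodup_prs List.nodup_range).filter _)
    intro p _ q _ h
    simp only [eb, List.cons.injEq, Prod.mk.injEq] at h
    exact Prod.ext h.1.1 h.2.1.2
  · refine List.Nodup.map_on ?_ List.nodup_range
    intro p _ q _ h
    simp only [vb, List.cons.injEq, Prod.mk.injEq] at h
    exact h.1.1
  · refine List.Nodup.map_on ?_ List.nodup_range
    intro p _ q _ h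
    simp only [vb, List.cons.injEq, Prod.mk.injEq] at h
    exact h.1.1
  · intro a ha b hb h
    subst h
    obtain ⟨i, _, rfl⟩ := List.mem_map.1 ha
    obtain ⟨j, _, h⟩ := List.mem_map.1 hb
    simp only [vb, List.cons.injEq, Prod.mk.injEq] at h
    omega
  · intro a ha b hb h
    subst h
    obtain ⟨i, j, _, _, _, rfl⟩ := mem_ebs.1 ha
    rcases List.mem_append.1 hb with hb | hb
    · obtain ⟨j, _, h⟩ := List.mem_map.1 hb
      simp [vb, eb] at h
    · obtain ⟨j, _, h⟩ := List.mem_map.1 hb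
      simp [vb, eb] at h

theorem length_blocksC {M : List (List Bool)} {l : List (ℕ × ℕ)} (h : l ∈ blocksC M) :
    3 ≤ l.length := by
  rcases mem_blocksC.1 h with ⟨i, j, h1, h2, h3, rfl⟩ | ⟨i, hi, rfl | rfl⟩ <;> simp [eb, vb]

theorem nodup_linesC (M : List (List Bool)) : (linesC M).Nodup := by
  unfold linesC
  rw [List.nodup_append]
  refine ⟨nodup_blocksC M, ?_, ?_⟩
  · refine List.Nodup.map_on ?_ ((nodup_prs (nodup_prs List.nodup_range)).filter _)
    intro p _ q _ h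
    simp only [List.cons.injEq] at h
    exact Prod.ext h.1 h.2.1
  · intro a ha b hb h
    subst h
    obtain ⟨p, q, h1, h2, h3, h4, rfl⟩ := mem_pairC.1 hb
    have := length_blocksC ha
    simp at this

theorem ne_nil_linesC {M : List (List Bool)} {l : List (ℕ × ℕ)} (h : l ∈ linesC M) : l ≠ [] := by
  rcases List.mem_append.1 h with h | h
  · have := length_blocksC h
    rintro rfl
    simp at this
  · obtain ⟨p, q, h1, h2, h3, h4, rfl⟩ := mem_pairC.1 h
    simp

theorem mem_vsC {M : List (List Bool)} {x : Cd} : x ∈ vsC M ↔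
    (x.2 = [] ∧ x.1 ∈ ptsC M) ∨ (x.2 ∈ linesC M ∧ x.1 ∈ x.2) := by
  obtain ⟨p, l⟩ := x
  simp only [vsC, List.mem_append, List.mem_map, List.mem_flatMap, Prod.mk.injEq]
  constructor
  · rintro (⟨q, hq, rfl, rfl⟩ | ⟨m, hm, q, hq, rfl, rfl⟩)
    · exact Or.inl ⟨rfl, hq⟩
    · exact Or.inr ⟨hm, hq⟩
  · rintro (⟨rfl, hq⟩ | ⟨hm, hq⟩)
    · exact Or.inl ⟨p, hq, rfl, rfl⟩
    · exact Or.inr ⟨l, hm, p, hq, rfl, rfl⟩

theorem nodup_vsC (M : List (List Bool)) : (vsC M).Nodup := by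
  unfold vsC
  rw [List.nodup_append]
  refine ⟨?_, ?_, ?_⟩
  · refine List.Nodup.map_on ?_ (nodup_prs List.nodup_range)
    intro p _ q _ h
    simpa using h
  · rw [List.nodup_flatMap]
    refine ⟨?_, ?_⟩
    · intro l hl
      refine List.Nodup.map_on ?_ (nodup_of_sorted (sorted_linesC hl))
      intro p _ q _ h
      simpa using h
    · refine (nodup_linesC M).imp ?_
      intro l m hlm x hx hx'
      obtain ⟨p, _, rfl⟩ := List.mem_map.1 hx
      obtain ⟨q, _, h⟩ := List.mem_map.1 hx'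
      simp only [Prod.mk.injEq] at h
      exact hlm h.2.symm
  · intro a ha b hb h
    subst h
    obtain ⟨p, _, rfl⟩ := List.mem_map.1 ha
    obtain ⟨l, hl, h⟩ := List.mem_flatMap.1 hb
    obtain ⟨q, _, h⟩ := List.mem_map.1 h
    simp only [Prod.mk.injEq] at h
    exact ne_nil_linesC hl h.2

/-! ### Comparison with the abstract construction -/

section Compare

variable {n : ℕ} (G : SimpleGraph (Fin n))

theorem length_adjMatrix : (adjMatrix G).length = n := by
  simp [adjMatrix]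

theorem ent_adjMatrix {i j : Fin n} : ent (adjMatrix G) i j = true ↔ G.Adj i j := by
  classical
  have h1 : (adjMatrix G).getD i [] = List.ofFn fun j => decide (G.Adj i j) := by
    unfold adjMatrix
    rw [List.getD_eq_getElem _ _ (by simp)]
    simp
  unfold ent
  rw [h1, List.getD_eq_getElem _ _ (by simp)]
  simp

/-- The code of a coordinate. -/
def tc : Fin n ⊕ Fin 3 → ℕ
  | Sum.inl i => i
  | Sum.inr k => n + k

theorem tc_inj {a b : Fin n ⊕ Fin 3} (h : tc a = tc b) : a = b := by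
  rcases a with a | a <;> rcases b with b | b <;> simp only [tc] at h
  · rw [Fin.ext h]
  · have := a.2; omega
  · have := b.2; omega
  · have : a = b := Fin.ext (by omega)
    rw [this]

theorem tc_lt (a : Fin n ⊕ Fin 3) : tc a < n + 3 := by
  rcases a with a | a
  · have := a.2; simp only [tc]; omega
  · have := a.2; simp only [tc]; omega

theorem exists_tc {a : ℕ} (h : a < n + 3) : ∃ x : Fin n ⊕ Fin 3, tc x = a := by
  by_cases h' : a < n
  · exact ⟨Sum.inl ⟨a, h'⟩, rfl⟩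
  · exact ⟨Sum.inr ⟨a - n, by omega⟩, by simp only [tc]; omega⟩

/-- The code of a point. -/
def pc (p : Pt (Fin n)) : ℕ × ℕ := (tc p.1, tc p.2)

theorem pc_inj {p q : Pt (Fin n)} (h : pc p = pc q) : p = q := by
  simp only [pc, Prod.mk.injEq] at h
  exact Prod.ext (tc_inj h.1) (tc_inj h.2)

theorem mem_ptsC_iff {p : ℕ × ℕ} : p ∈ ptsC (adjMatrix G) ↔ ∃ q : Pt (Fin n), pc q = p := by
  rw [mem_ptsC, length_adjMatrix]
  constructor
  · rintro ⟨h1, h2⟩
    obtain ⟨a, ha⟩ := exists_tc h1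
    obtain ⟨b, hb⟩ := exists_tc h2
    exact ⟨(a, b), by rw [pc, ha, hb]⟩
  · rintro ⟨q, rfl⟩
    exact ⟨tc_lt _, tc_lt _⟩

/-- The list represents the set of points. -/
def Rep (l : List (ℕ × ℕ)) (S : Set (Pt (Fin n))) : Prop := ∀ p, p ∈ l ↔ ∃ q ∈ S, pc q = p

variable {G}

theorem Rep.mem {l : List (ℕ × ℕ)} {S : Set (Pt (Fin n))} (h : Rep l S) (q : Pt (Fin n)) :
    pc q ∈ l ↔ q ∈ S := by
  rw [h]
  constructor
  · rintro ⟨r, hr, h⟩
    rwa [← pc_inj h]
  · intro hq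
    exact ⟨q, hq, rfl⟩

theorem Rep.unique {l : List (ℕ × ℕ)} {S T : Set (Pt (Fin n))} (h : Rep l S) (h' : Rep l T) :
    S = T := by
  ext q
  rw [← h.mem, h'.mem]

theorem rep_eb (i j : Fin n) : Rep (eb (i, j)) (EB i j) := by
  intro p
  simp only [eb, List.mem_cons, List.not_mem_nil, or_false]
  constructor
  · rintro (rfl | rfl | rfl | rfl)
    · exact ⟨(Sum.inl i, Sum.inl i), by simp [EB], rfl⟩
    · exact ⟨(Sum.inl i, Sum.inl j), by simp [EB], rfl⟩
    · exact ⟨(Sum.inl j, Sum.inl i), by simp [EB], rfl⟩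
    · exact ⟨(Sum.inl j, Sum.inl j), by simp [EB], rfl⟩
  · rintro ⟨⟨a, b⟩, ⟨h1, h2⟩, rfl⟩
    simp only at h1 h2
    rcases h1 with rfl | rfl <;> rcases h2 with rfl | rfl <;> simp [pc, tc]

theorem rep_vb (i : Fin n) (k : Fin 3) : Rep (vb (n + k) i) (VB i k) := by
  intro p
  simp only [vb, List.mem_cons, List.not_mem_nil, or_false]
  constructor
  · rintro (rfl | rfl | rfl)
    · exact ⟨(Sum.inl i, Sum.inl i), by simp [VB], rfl⟩
    · exact ⟨(Sum.inl i, Sum.inr k), by simp [VB], rfl⟩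
    · exact ⟨(Sum.inr k, Sum.inl i), by simp [VB], rfl⟩
  · rintro ⟨⟨a, b⟩, h, rfl⟩
    rcases h with h | h | h <;> simp only [Prod.mk.injEq] at h <;> obtain ⟨rfl, rfl⟩ := h <;>
      simp [pc, tc]

theorem rep_block_of {S : Set (Pt (Fin n))} (hS : S ∈ blocks G) :
    ∃ l ∈ blocksC (adjMatrix G), Rep l S := by
  rcases hS with ⟨i, j, hij, rfl⟩ | ⟨i, rfl | rfl⟩
  · rcases lt_or_gt_of_ne hij.ne with h | h
    · exact ⟨eb (i, j), mem_blocksC.2 (Or.inl ⟨i, j, h, by rw [length_adjMatrix]; exact j.2,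
        (ent_adjMatrix G).2 hij, rfl⟩), rep_eb i j⟩
    · refine ⟨eb (j, i), mem_blocksC.2 (Or.inl ⟨j, i, h, by rw [length_adjMatrix]; exact i.2,
        (ent_adjMatrix G).2 hij.symm, rfl⟩), ?_⟩
      rw [EB_comm]
      exact rep_eb j i
  · refine ⟨vb n i, mem_blocksC.2 (Or.inr ⟨i, by rw [length_adjMatrix]; exact i.2, Or.inl
      (by rw [length_adjMatrix])⟩), ?_⟩
    simpa using rep_vb i 0
  · refine ⟨vb (n + 1) i, mem_blocksC.2 (Or.inr ⟨i, by rw [length_adjMatrix]; exact i.2, Or.inr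
      (by rw [length_adjMatrix])⟩), ?_⟩
    simpa using rep_vb i 1

theorem rep_of_block {l : List (ℕ × ℕ)} (hl : l ∈ blocksC (adjMatrix G)) :
    ∃ S ∈ blocks G, Rep l S := by
  rcases mem_blocksC.1 hl with ⟨i, j, h1, h2, h3, rfl⟩ | ⟨i, hi, h⟩
  · rw [length_adjMatrix] at h2
    exact ⟨EB ⟨i, by omega⟩ ⟨j, h2⟩, Or.inl ⟨_, _, (ent_adjMatrix G (i := ⟨i, by omega⟩)
      (j := ⟨j, h2⟩)).1 h3, rfl⟩, rep_eb ⟨i, by omega⟩ ⟨j, h2⟩⟩
  · rw [length_adjMatrix] at hi h
    rcases h with rfl | rfl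
    · refine ⟨VB ⟨i, hi⟩ 0, Or.inr ⟨_, Or.inl rfl⟩, ?_⟩
      simpa using rep_vb ⟨i, hi⟩ 0
    · refine ⟨VB ⟨i, hi⟩ 1, Or.inr ⟨_, Or.inr rfl⟩, ?_⟩
      simpa using rep_vb ⟨i, hi⟩ 1

theorem rep_pair (p q : Pt (Fin n)) : Rep [pc p, pc q] {p, q} := by
  intro x
  simp only [List.mem_cons, List.not_mem_nil, or_false, Set.mem_insert_iff, Set.mem_singleton_iff]
  constructor
  · rintro (rfl | rfl)
    · exact ⟨p, Or.inl rfl, rfl⟩
    · exact ⟨q, Or.inr rfl, rfl⟩
  · rintro ⟨y, rfl | rfl, rfl⟩ <;> simp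

theorem ltB_total {p q : ℕ × ℕ} (h : p ≠ q) : ltB p q = true ∨ ltB q p = true := by
  rw [ltB_iff, ltB_iff]
  by_contra hh
  push Not at hh
  apply h
  apply Prod.ext <;> omega

theorem rep_line_of {S : Set (Pt (Fin n))} (hS : S ∈ lines (blocks G)) :
    ∃ l ∈ linesC (adjMatrix G), Rep l S := by
  rcases hS with hS | ⟨p, q, hpq, rfl, hS⟩
  · obtain ⟨l, hl, h⟩ := rep_block_of hS
    exact ⟨l, List.mem_append_left _ hl, h⟩
  · have key : ∀ T ∈ blocksC (adjMatrix G), ¬ (pc p ∈ T ∧ pc q ∈ T) := by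
      rintro T hT ⟨h1, h2⟩
      obtain ⟨S, hS', hr⟩ := rep_of_block hT
      exact hS S hS' ⟨(hr.mem p).1 h1, (hr.mem q).1 h2⟩
    rcases ltB_total (fun h => hpq (pc_inj h)) with h | h
    · exact ⟨[pc p, pc q], List.mem_append_right _ (mem_pairC.2 ⟨pc p, pc q,
        (mem_ptsC_iff G).2 ⟨p, rfl⟩, (mem_ptsC_iff G).2 ⟨q, rfl⟩, h, key, rfl⟩), rep_pair p q⟩
    · refine ⟨[pc q, pc p], List.mem_append_right _ (mem_pairC.2 ⟨pc q, pc p,
        (mem_ptsC_iff G).2 ⟨q, rfl⟩, (mem_ptsC_iff G).2 ⟨p, rfl⟩, h,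
        fun T hT hh => key T hT ⟨hh.2, hh.1⟩, rfl⟩), ?_⟩
      rw [Set.pair_comm]
      exact rep_pair q p

theorem rep_of_line {l : List (ℕ × ℕ)} (hl : l ∈ linesC (adjMatrix G)) :
    ∃ S ∈ lines (blocks G), Rep l S := by
  rcases List.mem_append.1 hl with h | h
  · obtain ⟨S, hS, hr⟩ := rep_of_block h
    exact ⟨S, Or.inl hS, hr⟩
  · obtain ⟨p, q, h1, h2, h3, h4, rfl⟩ := mem_pairC.1 h
    obtain ⟨p, rfl⟩ := (mem_ptsC_iff G).1 h1
    obtain ⟨q, rfl⟩ := (mem_ptsC_iff G).1 h2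
    refine ⟨{p, q}, Or.inr ⟨p, q, ?_, rfl, ?_⟩, rep_pair p q⟩
    · rintro rfl
      rw [ltB_iff] at h3
      omega
    · rintro T hT ⟨h5, h6⟩
      obtain ⟨m, hm, hr⟩ := rep_block_of hT
      exact h4 m hm ⟨(hr.mem p).2 h5, (hr.mem q).2 h6⟩

/-- The code of a line. -/
noncomputable def lc (S : {S : Set (Pt (Fin n)) // S ∈ lines (blocks G)}) : List (ℕ × ℕ) :=
  (rep_line_of S.2).choose

theorem lc_mem (S : {S : Set (Pt (Fin n)) // S ∈ lines (blocks G)}) :
    lc S ∈ linesC (adjMatrix G) := (rep_line_of S.2).choose_spec.1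

theorem lc_rep (S : {S : Set (Pt (Fin n)) // S ∈ lines (blocks G)}) : Rep (lc S) S.1 :=
  (rep_line_of S.2).choose_spec.2

theorem lc_inj {S T : {S : Set (Pt (Fin n)) // S ∈ lines (blocks G)}} (h : lc S = lc T) :
    S = T := by
  apply Subtype.ext
  have h1 := lc_rep S
  rw [h] at h1
  exact h1.unique (lc_rep T)

theorem lc_surj {l : List (ℕ × ℕ)} (hl : l ∈ linesC (adjMatrix G)) :
    ∃ S : {S : Set (Pt (Fin n)) // S ∈ lines (blocks G)}, lc S = l := by
  obtain ⟨S, hS, hr⟩ := rep_of_line hl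
  refine ⟨⟨S, hS⟩, eq_of_sorted (sorted_linesC (lc_mem _)) (sorted_linesC hl) fun p => ?_⟩
  rw [lc_rep ⟨S, hS⟩ p, hr p]

/-- The code of a vertex. -/
noncomputable def vc : FV (inc (blocks G)) → Cd
  | .pt p => (pc p, [])
  | .fl p S _ => (pc p, lc S)

theorem vc_mem (x : FV (inc (blocks G))) : vc x ∈ vsC (adjMatrix G) := by
  rcases x with p | ⟨p, S, h⟩
  · exact mem_vsC.2 (Or.inl ⟨rfl, (mem_ptsC_iff G).2 ⟨p, rfl⟩⟩)
  · exact mem_vsC.2 (Or.inr ⟨lc_mem S, ((lc_rep S).mem p).2 h⟩)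

theorem lc_ne_nil (S : {S : Set (Pt (Fin n)) // S ∈ lines (blocks G)}) : lc S ≠ [] :=
  ne_nil_linesC (lc_mem S)

theorem vc_inj {x y : FV (inc (blocks G))} (h : vc x = vc y) : x = y := by
  rcases x with p | ⟨p, S, hp⟩ <;> rcases y with q | ⟨q, T, hq⟩ <;>
    simp only [vc, Prod.mk.injEq] at h
  · rw [pc_inj h.1]
  · exact absurd h.2.symm (lc_ne_nil T)
  · exact absurd h.2 (lc_ne_nil S)
  · have h1 := pc_inj h.1
    have h2 := lc_inj h.2
    subst h1
    subst h2
    rfl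

theorem vc_surj {c : Cd} (hc : c ∈ vsC (adjMatrix G)) : ∃ x : FV (inc (blocks G)), vc x = c := by
  obtain ⟨p, l⟩ := c
  rcases mem_vsC.1 hc with ⟨h1, h2⟩ | ⟨h1, h2⟩
  · simp only at h1 h2
    obtain ⟨q, rfl⟩ := (mem_ptsC_iff G).1 h2
    exact ⟨.pt q, by rw [h1]; rfl⟩
  · simp only at h1 h2
    obtain ⟨S, rfl⟩ := lc_surj h1
    obtain ⟨q, hq, rfl⟩ := (lc_rep S p).1 h2
    exact ⟨.fl q S hq, rfl⟩

theorem adC_iff {p q : ℕ × ℕ} {l m : List (ℕ × ℕ)} : adC (p, l) (q, m) = true ↔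
    (p = q ∧ ¬ (l = [] ↔ m = [])) ∨ (l ≠ [] ∧ l = m ∧ p ≠ q) := by
  unfold adC
  by_cases h1 : p = q <;> by_cases h2 : l = [] <;> by_cases h3 : m = [] <;> simp [h1, h2, h3]

theorem adC_vc (x y : FV (inc (blocks G))) : adC (vc x) (vc y) = true ↔ (FG G).Adj x y := by
  rcases x with p | ⟨p, S, hp⟩ <;> rcases y with q | ⟨q, T, hq⟩
  · simp [adC_iff, vc]
  · rw [vc, vc, adC_iff, adj_pt_fl]
    constructor
    · rintro (⟨h, -⟩ | ⟨h, -⟩)
      · exact pc_inj h
      · exact absurd rfl h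
    · intro h
      exact Or.inl ⟨congrArg pc h, fun h' => lc_ne_nil T (h'.1 rfl)⟩
  · rw [vc, vc, adC_iff, adj_fl_pt]
    constructor
    · rintro (⟨h, -⟩ | ⟨-, h, -⟩)
      · exact pc_inj h
      · exact absurd h (lc_ne_nil S)
    · intro h
      exact Or.inl ⟨congrArg pc h, fun h' => lc_ne_nil S (h'.2 rfl)⟩
  · rw [vc, vc, adC_iff, adj_fl_fl]
    constructor
    · rintro (⟨-, h⟩ | ⟨-, h, h'⟩)
      · exact absurd ⟨fun h => absurd h (lc_ne_nil S), fun h => absurd h (lc_ne_nil T)⟩ h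
      · exact ⟨lc_inj h, fun h'' => h' (congrArg pc h'')⟩
    · rintro ⟨h, h'⟩
      exact Or.inr ⟨lc_ne_nil S, congrArg lc h, fun h'' => h' (pc_inj h'')⟩

/-- The graph on the positions of the list of codes. -/
def CG (vs : List Cd) (hs : ∀ x y, adC x y = adC y x) (hi : ∀ x, adC x x = false) :
    SimpleGraph (Fin vs.length) where
  Adj i j := adC vs[i] vs[j] = true
  symm := ⟨fun i j h => by rw [hs]; exact h⟩
  loopless := ⟨fun i h => by rw [hi] at h; exact absurd h (by decide)⟩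

theorem adC_symm (x y : Cd) : adC x y = adC y x := by
  unfold adC
  rw [Bool.xor_comm]
  by_cases h1 : x.1 = y.1 <;> by_cases h2 : x.2 = y.2
  · simp [h1, h2]
  · simp [h1, h2, Ne.symm h2]
  · simp [h1, h2, Ne.symm h1]
  · simp [h1, h2, Ne.symm h1, Ne.symm h2]

theorem adC_irrefl (x : Cd) : adC x x = false := by
  unfold adC
  simp

theorem adjMatrix_CG (vs : List Cd) : adjMatrix (CG vs adC_symm adC_irrefl) =
    vs.map fun u => vs.map fun w => adC u w := by
  classical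
  unfold adjMatrix
  apply List.ext_getElem
  · simp
  · intro i h1 h2
    simp only [List.getElem_ofFn, List.getElem_map]
    apply List.ext_getElem
    · simp
    · intro j h3 h4
      have hi : i < vs.length := by simpa using h2
      have hj : j < vs.length := by simpa using h4
      simp only [List.getElem_ofFn, List.getElem_map, CG, Fin.getElem_fin]
      have key : ∀ (b : Bool) (inst : Decidable (b = true)), @decide (b = true) inst = b := by
        intro b inst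
        cases b <;> simp
      exact key _ _

variable (G)

/-- The graph of the reduction, on an initial segment of the natural numbers. -/
noncomputable def RG : SimpleGraph (Fin (vsC (adjMatrix G)).length) :=
  CG (vsC (adjMatrix G)) adC_symm adC_irrefl

theorem adjMatrix_RG : adjMatrix (RG G) = matC (adjMatrix G) := adjMatrix_CG _

theorem RG_iso : Nonempty (FG G ≃g RG G) := by
  classical
  let e1 : FV (inc (blocks G)) ≃ {c // c ∈ vsC (adjMatrix G)} :=
    Equiv.ofBijective (fun x => ⟨vc x, vc_mem x⟩) ⟨fun x y h => vc_inj (congrArg Subtype.val h),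
      fun c => by
        obtain ⟨x, hx⟩ := vc_surj c.2
        exact ⟨x, Subtype.ext hx⟩⟩
  let e2 := List.Nodup.getEquiv _ (nodup_vsC (adjMatrix G))
  refine ⟨⟨e1.trans e2.symm, ?_⟩⟩
  intro x y
  have h : ∀ x, (vsC (adjMatrix G))[((e1.trans e2.symm) x)] = vc x := by
    intro x
    have h1 : e2 (e2.symm (e1 x)) = e1 x := e2.apply_symm_apply _
    exact congrArg Subtype.val h1
  show adC _ _ = true ↔ _
  rw [h, h, adC_vc]

end Compare

end Pool.Agent.N578.Geo
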