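import Pool.Agent.N578.Geo.Space

/-!
# The flag graph of the linear space of a graph determines the graph
-/

set_option autoImplicit false

namespace Pool.Agent.N578.Geo

open SimpleGraph

variable {V W : Type*}

theorem line_cases {G : SimpleGraph V} {S : Set (Pt V)} (hS : S ∈ lines (blocks G)) :
    (S.ncard = 4 ∧ ∃ i j, G.Adj i j ∧ S = EB i j) ∨ (S.ncard = 3 ∧ ∃ i k, S = VB i k) ∨
      S.ncard = 2 := by
  rcases hS with (⟨i, j, hij, rfl⟩ | ⟨i, rfl | rfl⟩) | ⟨p, q, hpq, rfl, -⟩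
  · exact Or.inl ⟨EB_ncard hij.ne, i, j, hij, rfl⟩
  · exact Or.inr (Or.inl ⟨VB_ncard i 0, i, 0, rfl⟩)
  · exact Or.inr (Or.inl ⟨VB_ncard i 1, i, 1, rfl⟩)
  · exact Or.inr (Or.inr (Set.ncard_pair hpq))

theorem nc_fl_le {G : SimpleGraph V} (p : Pt V) (S : {S : Set (Pt V) // S ∈ lines (blocks G)})
    (h : inc (blocks G) p S) : nc (FG G) (.fl p S h) = S.1.ncard ∧ S.1.ncard ≤ 4 := by
  refine ⟨nc_fl p S h, ?_⟩
  rcases line_cases S.2 with h | h | h <;> omega

theorem VB_mem_lines {G : SimpleGraph V} (i : V) (k : Fin 3) (hk : k = 0 ∨ k = 1) :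
    VB i k ∈ lines (blocks G) := by
  rcases hk with rfl | rfl
  · exact Or.inl (Or.inr ⟨i, Or.inl rfl⟩)
  · exact Or.inl (Or.inr ⟨i, Or.inr rfl⟩)

theorem dg_inj {i j : V} (h : dg i = dg j) : i = j := by
  simpa [dg] using h

theorem dg_mem_VB (i : V) (k : Fin 3) : dg i ∈ VB i k := by simp [VB, dg]

theorem dg_mem_EB (i j : V) : dg i ∈ EB i j := by simp [EB, dg]

theorem dg_mem_EB' (i j : V) : dg j ∈ EB i j := by simp [EB, dg]

theorem VP_iff [Finite V] {G : SimpleGraph V} (x : FV (inc (blocks G))) :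
    VP (FG G) x ↔ ∃ i, x = .pt (dg i) := by
  constructor
  · rintro ⟨h1, f, g, hfg, h2, h3, h4, h5⟩
    rcases x with p | ⟨p, S, hp⟩
    · rcases f with f | ⟨f, S, hf⟩
      · exact h2.elim
      rcases g with g | ⟨g, T, hg⟩
      · exact h3.elim
      simp only [adj_pt_fl] at h2 h3
      subst h2
      subst h3
      rw [(nc_fl_le _ _ _).1] at h4 h5
      rcases line_cases S.2 with h | ⟨-, i, k, hS⟩ | h
      · omega
      · rcases line_cases T.2 with h | ⟨-, j, l, hT⟩ | h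
        · omega
        · refine ⟨i, ?_⟩
          have hf' : p ∈ S.1 := hf
          have hg' : p ∈ T.1 := hg
          rw [hS] at hf'
          rw [hT] at hg'
          have hST : ¬ (i = j ∧ k = l) := by
            rintro ⟨rfl, rfl⟩
            apply hfg
            have : S = T := Subtype.ext (by rw [hS, hT])
            subst this
            rfl
          obtain ⟨p1, p2⟩ := p
          simp only [VB, Set.mem_ofPred_eq, Prod.mk.injEq] at hf' hg'
          rcases hf' with ⟨rfl, rfl⟩ | ⟨rfl, rfl⟩ | ⟨rfl, rfl⟩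
          · rfl
          · simp only [reduceCtorEq, and_false, Sum.inl.injEq, Sum.inr.injEq, false_or,
              or_false] at hg'
            exact absurd hg' hST
          · simp only [reduceCtorEq, false_and, false_or, Sum.inl.injEq, Sum.inr.injEq] at hg'
            exact absurd ⟨hg'.2, hg'.1⟩ hST
        · omega
      · omega
    · have := nc_fl_le _ _ hp
      omega
  · rintro ⟨i, rfl⟩
    refine ⟨five_le_nc _, .fl (dg i) ⟨VB i 0, VB_mem_lines i 0 (Or.inl rfl)⟩ (dg_mem_VB i 0),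
      .fl (dg i) ⟨VB i 1, VB_mem_lines i 1 (Or.inr rfl)⟩ (dg_mem_VB i 1), ?_, rfl, rfl,
      (nc_fl_le _ _ _).1.trans (VB_ncard i 0), (nc_fl_le _ _ _).1.trans (VB_ncard i 1)⟩
    intro h
    have h1 : VB i 0 = VB i 1 := congrArg Subtype.val (fl_inj h).2
    have h2 : ((Sum.inl i, Sum.inr 0) : Pt V) ∈ VB i 1 := by rw [← h1]; simp [VB]
    simp [VB] at h2

theorem EP_iff [Finite V] {G : SimpleGraph V} {i j : V} (hij : i ≠ j) :
    EP (FG G) (.pt (dg i)) (.pt (dg j)) ↔ G.Adj i j := by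
  constructor
  · rintro ⟨f, g, h1, h2, h3, h4, h5⟩
    rcases f with f | ⟨f, S, hf⟩
    · exact h1.elim
    rcases g with g | ⟨g, T, hg⟩
    · have := five_le_nc (G := G) g
      omega
    simp only [adj_pt_fl] at h1
    simp only [adj_fl_pt] at h3
    simp only [adj_fl_fl] at h2
    subst h1
    subst h3
    obtain ⟨rfl, -⟩ := h2
    rw [(nc_fl_le _ _ _).1] at h4
    rcases line_cases S.2 with ⟨-, a, b, hab, hS⟩ | h | h
    · have hf' : dg i ∈ S.1 := hf
      have hg' : dg j ∈ S.1 := hg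
      rw [hS] at hf' hg'
      rcases mem_EB_diag.1 hf' with rfl | rfl <;> rcases mem_EB_diag.1 hg' with rfl | rfl
      · exact absurd rfl hij
      · exact hab
      · exact hab.symm
      · exact absurd rfl hij
    · omega
    · omega
  · intro h
    have hE : EB i j ∈ lines (blocks G) := Or.inl (Or.inl ⟨i, j, h, rfl⟩)
    exact ⟨.fl (dg i) ⟨EB i j, hE⟩ (dg_mem_EB i j), .fl (dg j) ⟨EB i j, hE⟩ (dg_mem_EB' i j), rfl,
      ⟨rfl, fun h => hij (dg_inj h)⟩, rfl, (nc_fl_le _ _ _).1.trans (EB_ncard hij),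
      (nc_fl_le _ _ _).1.trans (EB_ncard hij)⟩

/-- The map of the points given by a map of the vertices. -/
def ptMap (φ : V ≃ W) : Pt V ≃ Pt W :=
  Equiv.prodCongr (Equiv.sumCongr φ (Equiv.refl (Fin 3))) (Equiv.sumCongr φ (Equiv.refl (Fin 3)))

theorem image_mem_blocks {G : SimpleGraph V} {H : SimpleGraph W} (φ : G ≃g H)
    {S : Set (Pt V)} (hS : S ∈ blocks G) : ptMap φ.toEquiv '' S ∈ blocks H := by
  have hφ : ∀ (p : W) (i : V), φ.toEquiv.symm p = i ↔ p = φ i := fun p i =>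
    φ.toEquiv.symm_apply_eq
  rcases hS with ⟨i, j, hij, rfl⟩ | ⟨i, rfl | rfl⟩
  · refine Or.inl ⟨φ i, φ j, φ.map_adj_iff.2 hij, ?_⟩
    rw [Equiv.image_eq_preimage_symm]
    ext ⟨p, q⟩
    simp only [EB, Set.mem_preimage, Set.mem_ofPred_eq]
    rcases p with p | p <;> rcases q with q | q <;>
      simp [ptMap, hφ]
  · refine Or.inr ⟨φ i, Or.inl ?_⟩
    rw [Equiv.image_eq_preimage_symm]
    ext ⟨p, q⟩
    simp only [VB, Set.mem_preimage, Set.mem_ofPred_eq, Prod.mk.injEq]
    rcases p with p | p <;> rcases q with q | q <;>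
      simp [ptMap, hφ]
  · refine Or.inr ⟨φ i, Or.inr ?_⟩
    rw [Equiv.image_eq_preimage_symm]
    ext ⟨p, q⟩
    simp only [VB, Set.mem_preimage, Set.mem_ofPred_eq, Prod.mk.injEq]
    rcases p with p | p <;> rcases q with q | q <;>
      simp [ptMap, hφ]

/-- Isomorphic graphs give isomorphic flag graphs. -/
theorem FG_of_iso {G : SimpleGraph V} {H : SimpleGraph W} (h : Nonempty (G ≃g H)) :
    Nonempty (FG G ≃g FG H) := by
  obtain ⟨φ⟩ := h
  exact ⟨blockIso (ptMap φ.toEquiv) (fun S hS => image_mem_blocks φ hS)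
    (fun S hS => image_mem_blocks φ.symm hS)⟩

/-- If the flag graphs are isomorphic then the graphs are isomorphic. -/
theorem iso_of_FG [Finite V] [Finite W] {G : SimpleGraph V} {H : SimpleGraph W}
    (h : Nonempty (FG G ≃g FG H)) : Nonempty (G ≃g H) := by
  obtain ⟨φ⟩ := h
  have h1 : ∀ i : V, ∃ j : W, φ (.pt (dg i)) = .pt (dg j) := fun i =>
    (VP_iff _).1 (VP_iso φ ((VP_iff _).2 ⟨i, rfl⟩))
  have h2 : ∀ j : W, ∃ i : V, φ (.pt (dg i)) = .pt (dg j) := by
    intro j
    obtain ⟨i, hi⟩ := (VP_iff _).1 (VP_iso φ.symm ((VP_iff (.pt (dg j))).2 ⟨j, rfl⟩))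
    exact ⟨i, by rw [← hi]; simp⟩
  choose σ hσ using h1
  have hinj : Function.Injective σ := by
    intro i j hij
    have h3 := hσ i
    rw [hij, ← hσ j] at h3
    have h4 := φ.injective h3
    injection h4 with h5
    exact dg_inj h5
  have hsurj : Function.Surjective σ := by
    intro j
    obtain ⟨i, hi⟩ := h2 j
    refine ⟨i, ?_⟩
    rw [hσ i] at hi
    injection hi with h5
    exact dg_inj h5
  have hbij : Function.Bijective σ := ⟨hinj, hsurj⟩
  refine ⟨⟨Equiv.ofBijective σ hbij, ?_⟩⟩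
  intro i j
  show H.Adj (σ i) (σ j) ↔ G.Adj i j
  by_cases hij : i = j
  · subst hij; simp
  · rw [← EP_iff (G := G) hij, ← EP_iff (G := H) (fun h => hij (hinj h)), ← hσ i, ← hσ j,
      EP_iso_iff]

theorem FG_iso_iff [Finite V] [Finite W] {G : SimpleGraph V} {H : SimpleGraph W} :
    Nonempty (FG G ≃g FG H) ↔ Nonempty (G ≃g H) :=
  ⟨iso_of_FG, FG_of_iso⟩

instance : Nonempty (Pt V) := ⟨(Sum.inr 0, Sum.inr 0)⟩

/-- The flag graph of the linear space of a graph is geodetic, two-connected and of diameter at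
most five. -/
theorem FG_good (G : SimpleGraph V) : IsGeodetic (FG G) ∧ IsTwoConnected (FG G) ∧
    ∀ x y, (FG G).dist x y ≤ 5 := by
  have hlin := linear_inc (isPLS_blocks G)
  refine ⟨isGeodetic_flagGraph hlin, isTwoConnected_flagGraph hlin
    ⟨(Sum.inr 0, Sum.inr 0), (Sum.inr 0, Sum.inr 1), by simp⟩ ?_ ?_, dist_flagGraph_le hlin⟩
  · intro p S
    -- two lines through `p` which are pairs
    have : ∃ a b : Fin 3 × Fin 3, a ≠ b ∧ p ≠ (Sum.inr a.1, Sum.inr a.2) ∧
        p ≠ (Sum.inr b.1, Sum.inr b.2) := by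
      by_cases h0 : p = (Sum.inr 0, Sum.inr 0)
      · subst h0
        exact ⟨(0, 1), (0, 2), by decide, by simp, by simp⟩
      · by_cases h1 : p = (Sum.inr 0, Sum.inr 1)
        · subst h1
          exact ⟨(0, 0), (0, 2), by decide, by simp, by simp⟩
        · exact ⟨(0, 0), (0, 1), by decide, h0, h1⟩
    obtain ⟨a, b, hab, ha, hb⟩ := this
    by_cases hS : S = ⟨{p, (Sum.inr a.1, Sum.inr a.2)}, extra_line ha⟩
    · refine ⟨⟨{p, (Sum.inr b.1, Sum.inr b.2)}, extra_line hb⟩, ?_, by simp [inc]⟩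
      rw [hS]
      intro h
      have h1 : ({p, (Sum.inr b.1, Sum.inr b.2)} : Set (Pt V)) = {p, (Sum.inr a.1, Sum.inr a.2)} :=
        congrArg Subtype.val h
      have h2 : ((Sum.inr b.1, Sum.inr b.2) : Pt V) ∈
          ({p, (Sum.inr a.1, Sum.inr a.2)} : Set (Pt V)) := by rw [← h1]; simp
      simp only [Set.mem_insert_iff, Set.mem_singleton_iff, hb.symm, false_or, Prod.mk.injEq,
        Sum.inr.injEq] at h2
      exact hab (Prod.ext h2.1.symm h2.2.symm)
    · exact ⟨_, fun h => hS h.symm, by simp [inc]⟩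
  · rintro ⟨S, hS⟩ p
    rcases hS with (⟨i, j, hij, rfl⟩ | ⟨i, rfl | rfl⟩) | ⟨a, b, hab, rfl, -⟩
    · by_cases h : p = dg i
      · exact ⟨dg j, by rw [h]; exact fun h => hij.ne (dg_inj h).symm, by simp [inc, EB, dg]⟩
      · exact ⟨dg i, fun h' => h h'.symm, by simp [inc, EB, dg]⟩
    · by_cases h : p = dg i
      · exact ⟨(Sum.inl i, Sum.inr 0), by rw [h]; simp [dg], by simp [inc, VB]⟩
      · exact ⟨dg i, fun h' => h h'.symm, by simp [inc, VB, dg]⟩
    · by_cases h : p = dg i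
      · exact ⟨(Sum.inl i, Sum.inr 1), by rw [h]; simp [dg], by simp [inc, VB]⟩
      · exact ⟨dg i, fun h' => h h'.symm, by simp [inc, VB, dg]⟩
    · by_cases h : p = a
      · exact ⟨b, by rw [h]; exact hab.symm, by simp [inc]⟩
      · exact ⟨a, fun h' => h h'.symm, by simp [inc]⟩

end Pool.Agent.N578.Geo
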