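import Mathlib

/-!
# Geodetic graphs: definitions
-/

set_option autoImplicit false

namespace Pool.Agent.N578.Geo

/-- A graph is geodetic if it is connected and any two vertices are joined by exactly one shortest
path. -/
def IsGeodetic {V : Type*} (G : SimpleGraph V) : Prop :=
  G.Connected ∧ ∀ u v : V, ∃! p : G.Walk u v, p.IsPath ∧ p.length = G.dist u v

/-- Two-connectedness: at least three vertices, and deleting any vertex leaves a connected
graph. -/
def IsTwoConnected {V : Type*} (G : SimpleGraph V) : Prop :=
  (∃ a b c : V, a ≠ b ∧ a ≠ c ∧ b ≠ c) ∧ ∀ x : V, (G.induce {y | y ≠ x}).Connected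

/-- The adjacency matrix of a graph on `{0, ..., n-1}`, as the list of its rows. -/
noncomputable def adjMatrix {n : ℕ} (G : SimpleGraph (Fin n)) : List (List Bool) :=
  open Classical in List.ofFn fun i => List.ofFn fun j => decide (G.Adj i j)

end Pool.Agent.N578.Geo
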