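import Pool.Agent.N578.Geo.Defs

/-!
# Geodetic graphs: a criterion by descent
-/

set_option autoImplicit false

namespace Pool.Agent.N578.Geo

open SimpleGraph

variable {V : Type*} {G : SimpleGraph V}

section Desc

variable (D : V → V → ℕ)

/-- The descent property. -/
def Descent (G : SimpleGraph V) (D : V → V → ℕ) : Prop :=
  (∀ v, D v v = 0) ∧ ∀ x v, x ≠ v → ∃ y, G.Adj x y ∧ D y v + 1 = D x v ∧
    ∀ z, G.Adj x z → z ≠ y → D x v ≤ D z v

variable {D}

theorem Descent.le_length (h : Descent G D) {x v : V} (p : G.Walk x v) : D x v ≤ p.length := by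
  induction p with
  | nil => rw [h.1]; exact Nat.zero_le _
  | @cons a b c hab q ih =>
    rw [Walk.length_cons]
    by_cases hac : a = c
    · subst hac
      rw [h.1]
      exact Nat.zero_le _
    · obtain ⟨y, hy, h1, h2⟩ := h.2 a c hac
      by_cases hb : b = y
      · subst hb; omega
      · have := h2 b hab hb
        omega

theorem Descent.exists_walk (h : Descent G D) : ∀ (k : ℕ) (x v : V), D x v = k →
    ∃ p : G.Walk x v, p.length = k := by
  intro k
  induction k with
  | zero =>
    intro x v hk
    by_cases hxv : x = v
    · subst hxv; exact ⟨Walk.nil, rfl⟩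
    · obtain ⟨y, _, h1, _⟩ := h.2 x v hxv
      omega
  | succ k ih =>
    intro x v hk
    by_cases hxv : x = v
    · subst hxv
      rw [h.1] at hk
      omega
    · obtain ⟨y, hy, h1, _⟩ := h.2 x v hxv
      obtain ⟨p, hp⟩ := ih y v (by omega)
      exact ⟨Walk.cons hy p, by rw [Walk.length_cons, hp]⟩

theorem Descent.unique (h : Descent G D) : ∀ (k : ℕ) (x v : V), D x v = k →
    ∀ p q : G.Walk x v, p.length = k → q.length = k → p = q := by
  intro k
  induction k with
  | zero =>
    intro x v _ p q hp hq
    cases p with
    | nil =>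
      cases q with
      | nil => rfl
      | cons _ _ => simp at hq
    | cons _ _ => simp at hp
  | succ k ih =>
    intro x v hk p q hp hq
    have hxv : x ≠ v := by
      rintro rfl
      rw [h.1] at hk
      omega
    obtain ⟨y, hy, h1, h2⟩ := h.2 x v hxv
    cases p with
    | nil => simp at hp
    | @cons _ b _ hab p' =>
      cases q with
      | nil => simp at hq
      | @cons _ c _ hac q' =>
        rw [Walk.length_cons] at hp hq
        have hb : b = y := by
          by_contra hb
          have := h2 b hab hb
          have := h.le_length p'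
          omega
        have hc : c = y := by
          by_contra hc
          have := h2 c hac hc
          have := h.le_length q'
          omega
        subst hb
        subst hc
        rw [ih c v (by omega) p' q' (by omega) (by omega)]

theorem Descent.dist_eq (h : Descent G D) (x v : V) : G.dist x v = D x v := by
  obtain ⟨p, hp⟩ := h.exists_walk _ x v rfl
  refine le_antisymm (hp ▸ dist_le p) ?_
  obtain ⟨q, hq⟩ := (Reachable.exists_walk_length_eq_dist (⟨p⟩ : G.Reachable x v))
  rw [← hq]
  exact h.le_length q

theorem Descent.isGeodetic [Nonempty V] (h : Descent G D) : IsGeodetic G := by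
  refine ⟨⟨fun x v => ?_⟩, fun x v => ?_⟩
  · obtain ⟨p, _⟩ := h.exists_walk _ x v rfl
    exact ⟨p⟩
  · obtain ⟨p, hp⟩ := h.exists_walk _ x v rfl
    have hd := h.dist_eq x v
    refine ⟨p, ⟨p.isPath_of_length_eq_dist (by omega), by omega⟩, ?_⟩
    rintro q ⟨_, hq⟩
    exact h.unique _ x v rfl q p (by omega) (by omega)

end Desc

end Pool.Agent.N578.Geo
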