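import Pool.Agent.N578.Geo.PolyRed
import Pool.Agent.NPC.Dec

/-!
# The reduction as a function on bit strings
-/

set_option autoImplicit false

namespace Pool.Agent.NPC.N578.Geo

open Pool.Agent.N578.Geo SimpleGraph

/-- The reduction on bit strings. -/
def red (x : List Bool) : List Bool :=
  bits (match unbits (List (List Bool) × List (List Bool)) x with
    | some p => (matC p.1, matC p.2)
    | none => ([], []))

theorem polyTime_red : PolyTime red := by
  refine polyTime_bits (g := fun x => match unbits (List (List Bool) × List (List Bool)) x with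
    | some p => (matC p.1, matC p.2)
    | none => ([], [])) ?_
  refine (Poly.optCases (g := fun _ => (([], []) : List (List Bool) × List (List Bool)))
    (h := fun _ (p : List (List Bool) × List (List Bool)) => (matC p.1, matC p.2)) poly_unbits
    (Poly.const _)
    (Poly.pair (poly_matC (Poly.fst (Poly.snd Poly.id)))
      (poly_matC (Poly.snd (Poly.snd Poly.id))))).congr fun x => ?_
  cases unbits (List (List Bool) × List (List Bool)) x <;> rfl

theorem red_bits {n m : ℕ} (G : SimpleGraph (Fin n)) (H : SimpleGraph (Fin m)) :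
    red (bits (adjMatrix G, adjMatrix H)) = bits (adjMatrix (RG G), adjMatrix (RG H)) := by
  unfold red
  rw [unbits_bits, adjMatrix_RG, adjMatrix_RG]

end Pool.Agent.NPC.N578.Geo

namespace Pool.Agent.N578.Geo

open SimpleGraph

section Transfer

variable {V W : Type*} {G : SimpleGraph V} {H : SimpleGraph W}

theorem Descent.iso {D : V → V → ℕ} (φ : G ≃g H) (h : Descent G D) :
    Descent H (fun x v => D (φ.symm x) (φ.symm v)) := by
  refine ⟨fun v => h.1 _, fun x v hxv => ?_⟩
  obtain ⟨y, h1, h2, h3⟩ := h.2 (φ.symm x) (φ.symm v) (by simpa using hxv)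
  refine ⟨φ y, ?_, by simpa using h2, fun z hz hzy => h3 _ (φ.symm.map_adj_iff.2 hz) ?_⟩
  · have := φ.map_adj_iff.2 h1
    simpa using this
  · intro h
    apply hzy
    rw [← h]
    simp

theorem RA.iso (φ : G ≃g H) {x a b : V} (h : RA G x a b) : RA H (φ x) (φ a) (φ b) := by
  obtain ⟨ha, hb, h⟩ := h
  refine ⟨by simpa using ha, by simpa using hb, ?_⟩
  let ψ : G.induce {y | y ≠ x} →g H.induce {y | y ≠ φ x} :=
    { toFun := fun y => ⟨φ y.1, fun h => y.2 (φ.injective h)⟩
      map_rel' := fun {a b} h => by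
        simp only [comap_adj, Function.Embedding.subtype_apply] at h ⊢
        exact φ.map_adj_iff.2 h }
  exact h.map ψ

theorem IsTwoConnected.iso (φ : G ≃g H) (h : IsTwoConnected G) : IsTwoConnected H := by
  obtain ⟨⟨a, b, c, h1, h2, h3⟩, h4⟩ := h
  refine ⟨⟨φ a, φ b, φ c, by simpa using h1, by simpa using h2, by simpa using h3⟩, fun x => ?_⟩
  have h5 := h4 (φ.symm x)
  obtain ⟨⟨d, hd⟩⟩ := h5.nonempty
  have hd' : φ d ≠ x := fun h => hd (by rw [← h]; simp)
  refine connected_of_RA (c := φ d) hd' fun z hz => ?_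
  have hz' : φ.symm z ≠ φ.symm x := by simpa using hz
  have h6 : RA G (φ.symm x) (φ.symm z) d := ⟨hz', hd, h5.preconnected _ _⟩
  have h7 := RA.iso φ h6
  simpa using h7

end Transfer

theorem RG_good {n : ℕ} (G : SimpleGraph (Fin n)) : IsGeodetic (RG G) ∧ IsTwoConnected (RG G) ∧
    ∀ x y, (RG G).dist x y ≤ 5 := by
  obtain ⟨φ⟩ := RG_iso G
  have h1 := (descent (linear_inc (isPLS_blocks G))).iso φ
  have h2 := IsTwoConnected.iso φ (FG_good G).2.1
  obtain ⟨a, -⟩ := h2.1
  have : Nonempty (Fin (vsC (adjMatrix G)).length) := ⟨a⟩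
  exact ⟨h1.isGeodetic, h2, fun x y => by rw [h1.dist_eq]; exact FD_le _ _⟩

theorem RG_iso_iff {n m : ℕ} (G : SimpleGraph (Fin n)) (H : SimpleGraph (Fin m)) :
    Nonempty (RG G ≃g RG H) ↔ Nonempty (G ≃g H) := by
  rw [← FG_iso_iff (G := G) (H := H)]
  obtain ⟨φ⟩ := RG_iso G
  obtain ⟨ψ⟩ := RG_iso H
  constructor
  · rintro ⟨e⟩
    exact ⟨(φ.trans e).trans ψ.symm⟩
  · rintro ⟨e⟩
    exact ⟨(φ.symm.trans e).trans ψ⟩

end Pool.Agent.N578.Geo
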