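import Pool.Agent.N578.Geo.Desc

/-!
# The flag graph of a linear space is geodetic
-/

set_option autoImplicit false

namespace Pool.Agent.N578.Geo

open SimpleGraph

variable {P L : Type*}

/-- The vertices of the flag graph: points, and flags (a point on a line). -/
inductive FV (I : P → L → Prop) : Type _
  | pt (p : P) : FV I
  | fl (p : P) (l : L) (h : I p l) : FV I

variable {I : P → L → Prop}

/-- Adjacency in the flag graph: a point is adjacent to its flags, and two flags of different
points on the same line are adjacent. -/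
def FV.adj : FV I → FV I → Prop
  | .pt _, .pt _ => False
  | .pt p, .fl q _ _ => p = q
  | .fl p _ _, .pt q => p = q
  | .fl p l _, .fl q m _ => l = m ∧ p ≠ q

variable (I) in
/-- The flag graph of an incidence structure. -/
def flagGraph : SimpleGraph (FV I) where
  Adj := FV.adj
  symm := ⟨by
    rintro (p | ⟨p, l, h⟩) (q | ⟨q, m, h'⟩) hh
    · exact hh
    · exact Eq.symm hh
    · exact Eq.symm hh
    · exact ⟨hh.1.symm, hh.2.symm⟩⟩
  loopless := ⟨by
    rintro (p | ⟨p, l, h⟩) hh
    · exact hh
    · exact hh.2 rfl⟩

@[simp] theorem adj_pt_pt (p q : P) : (flagGraph I).Adj (.pt p) (.pt q) ↔ False := Iff.rfl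
@[simp] theorem adj_pt_fl (p q : P) (m : L) (h : I q m) :
    (flagGraph I).Adj (.pt p) (.fl q m h) ↔ p = q := Iff.rfl
@[simp] theorem adj_fl_pt (p q : P) (m : L) (h : I p m) :
    (flagGraph I).Adj (.fl p m h) (.pt q) ↔ p = q := Iff.rfl
@[simp] theorem adj_fl_fl (p q : P) (l m : L) (h : I p l) (h' : I q m) :
    (flagGraph I).Adj (.fl p l h) (.fl q m h') ↔ l = m ∧ p ≠ q := Iff.rfl

/-- Linear spaces: any two different points are on exactly one line. -/
def Linear (I : P → L → Prop) : Prop := ∀ p q : P, p ≠ q → ∃! l, I p l ∧ I q l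

open Classical in
/-- The distance in the flag graph. -/
noncomputable def FD : FV I → FV I → ℕ
  | .pt p, .pt r => if p = r then 0 else 3
  | .pt p, .fl r m _ => if p = r then 1 else if I p m then 2 else 4
  | .fl p l _, .pt r => if p = r then 1 else if I r l then 2 else 4
  | .fl p l _, .fl r m _ => if l = m then (if p = r then 0 else 1) else if p = r then 2 else
      if I r l ∨ I p m then 3 else if ∃ t, I t l ∧ I t m then 4 else 5

theorem FD_le (x v : FV I) : FD x v ≤ 5 := by
  rcases x with p | ⟨p, l, h⟩ <;> rcases v with r | ⟨r, m, h'⟩ <;> simp only [FD] <;>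
    split_ifs <;> omega

theorem Linear.eq_line (hI : Linear I) {p q : P} (h : p ≠ q) {l m : L} (h1 : I p l) (h2 : I q l)
    (h3 : I p m) (h4 : I q m) : l = m :=
  (hI p q h).unique ⟨h1, h2⟩ ⟨h3, h4⟩

theorem Linear.eq_pt (hI : Linear I) {p q : P} {l m : L} (h : l ≠ m) (h1 : I p l) (h2 : I q l)
    (h3 : I p m) (h4 : I q m) : p = q := by
  by_contra hpq
  exact h (hI.eq_line hpq h1 h2 h3 h4)

theorem descent (hI : Linear I) : Descent (flagGraph I) FD := by
  classical
  refine ⟨?_, ?_⟩
  · rintro (p | ⟨p, l, h⟩) <;> simp [FD]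
  · rintro (p | ⟨p, l, h⟩) (r | ⟨r, m, h'⟩) hne
    · -- point to point
      have hpr : p ≠ r := fun h => hne (by rw [h])
      obtain ⟨l, ⟨h1, h2⟩, hu⟩ := hI p r hpr
      refine ⟨.fl p l h1, rfl, ?_, ?_⟩
      · simp [FD, hpr, h2]
      · rintro (z | ⟨z, k, hz⟩) hadj hzy
        · exact hadj.elim
        · simp only [adj_pt_fl] at hadj
          subst hadj
          have hrk : ¬ I r k := fun hr => hzy (by have := hu k ⟨hz, hr⟩; subst this; rfl)
          simp [FD, hpr, hrk]
    · -- point to flag
      by_cases hpr : p = r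
      · subst hpr
        refine ⟨.fl p m h', rfl, by simp [FD], ?_⟩
        rintro (z | ⟨z, k, hz⟩) hadj hzy
        · exact hadj.elim
        · simp only [adj_pt_fl] at hadj
          subst hadj
          have hkm : k ≠ m := by rintro rfl; exact hzy rfl
          simp [FD, hkm]
      · by_cases hpm : I p m
        · refine ⟨.fl p m hpm, rfl, by simp [FD, hpr, hpm], ?_⟩
          rintro (z | ⟨z, k, hz⟩) hadj hzy
          · exact hadj.elim
          · simp only [adj_pt_fl] at hadj
            subst hadj
            have hkm : k ≠ m := by rintro rfl; exact hzy rfl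
            simp [FD, hkm, hpr, hpm]
        · obtain ⟨l, ⟨h1, h2⟩, hu⟩ := hI p r hpr
          have hlm : l ≠ m := by rintro rfl; exact hpm h1
          refine ⟨.fl p l h1, rfl, by simp [FD, hpr, hpm, hlm, h2], ?_⟩
          rintro (z | ⟨z, k, hz⟩) hadj hzy
          · exact hadj.elim
          · simp only [adj_pt_fl] at hadj
            subst hadj
            have hkm : k ≠ m := by rintro rfl; exact hpm hz
            have hrk : ¬ I r k := fun hr => hzy (by have := hu k ⟨hz, hr⟩; subst this; rfl)
            simp only [FD, hpr, hpm, hkm, hrk, if_false, or_self]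
            split_ifs <;> omega
    · -- flag to point
      by_cases hpr : p = r
      · subst hpr
        refine ⟨.pt p, rfl, by simp [FD], ?_⟩
        rintro (z | ⟨z, k, hz⟩) hadj hzy
        · simp only [adj_fl_pt] at hadj
          subst hadj
          exact absurd rfl hzy
        · simp only [adj_fl_fl] at hadj
          obtain ⟨rfl, hpz⟩ := hadj
          simp [FD, Ne.symm hpz, h]
      · by_cases hrl : I r l
        · refine ⟨.fl r l hrl, ⟨rfl, hpr⟩, by simp [FD, hpr, hrl], ?_⟩
          rintro (z | ⟨z, k, hz⟩) hadj hzy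
          · simp only [adj_fl_pt] at hadj
            subst hadj
            simp [FD, hpr, hrl]
          · simp only [adj_fl_fl] at hadj
            obtain ⟨rfl, hpz⟩ := hadj
            have hzr : z ≠ r := by rintro rfl; exact hzy rfl
            simp [FD, hpr, hrl, hzr]
        · refine ⟨.pt p, rfl, by simp [FD, hpr, hrl], ?_⟩
          rintro (z | ⟨z, k, hz⟩) hadj hzy
          · simp only [adj_fl_pt] at hadj
            subst hadj
            exact absurd rfl hzy
          · simp only [adj_fl_fl] at hadj
            obtain ⟨rfl, hpz⟩ := hadj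
            have hzr : z ≠ r := by rintro rfl; exact hrl hz
            simp [FD, hpr, hrl, hzr]
    · -- flag to flag
      by_cases hlm : l = m
      · subst hlm
        have hpr : p ≠ r := by rintro rfl; exact hne rfl
        refine ⟨.fl r l h', ⟨rfl, hpr⟩, by simp [FD, hpr], ?_⟩
        rintro (z | ⟨z, k, hz⟩) hadj hzy
        · simp only [adj_fl_pt] at hadj
          subst hadj
          simp [FD, hpr, h]
        · simp only [adj_fl_fl] at hadj
          obtain ⟨rfl, hpz⟩ := hadj
          have hzr : z ≠ r := by rintro rfl; exact hzy rfl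
          simp [FD, hpr, hzr]
      · by_cases hpr : p = r
        · subst hpr
          refine ⟨.pt p, rfl, by simp [FD, hlm], ?_⟩
          rintro (z | ⟨z, k, hz⟩) hadj hzy
          · simp only [adj_fl_pt] at hadj
            subst hadj
            exact absurd rfl hzy
          · simp only [adj_fl_fl] at hadj
            obtain ⟨rfl, hpz⟩ := hadj
            simp only [FD, hlm, Ne.symm hpz, if_false, if_true]
            split_ifs <;> omega
        · by_cases hrl : I r l
          · -- the lines meet in `r`
            have hpm : ¬ I p m := fun hpm => hpr (hI.eq_pt hlm h hrl hpm h')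
            refine ⟨.fl r l hrl, ⟨rfl, hpr⟩, by simp [FD, hlm, hpr, hrl], ?_⟩
            rintro (z | ⟨z, k, hz⟩) hadj hzy
            · simp only [adj_fl_pt] at hadj
              subst hadj
              simp [FD, hpr, hpm, hrl, hlm]
            · simp only [adj_fl_fl] at hadj
              obtain ⟨rfl, hpz⟩ := hadj
              have hzr : z ≠ r := by rintro rfl; exact hzy rfl
              simp [FD, hpr, hrl, hzr, hlm]
          · by_cases hpm : I p m
            · refine ⟨.pt p, rfl, by simp [FD, hlm, hpr, hpm], ?_⟩
              rintro (z | ⟨z, k, hz⟩) hadj hzy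
              · simp only [adj_fl_pt] at hadj
                subst hadj
                exact absurd rfl hzy
              · simp only [adj_fl_fl] at hadj
                obtain ⟨rfl, hpz⟩ := hadj
                have hzm : ¬ I z m := fun hzm => hpz (hI.eq_pt hlm h hz hpm hzm)
                have hzr : z ≠ r := by rintro rfl; exact hrl hz
                simp only [FD, hlm, hpr, hpm, hrl, hzm, hzr, if_false, or_self, or_true, if_true]
                split_ifs <;> omega
            · by_cases hex : ∃ t, I t l ∧ I t m
              · obtain ⟨t, ht1, ht2⟩ := hex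
                have hpt : p ≠ t := by rintro rfl; exact hpm ht2
                have htr : t ≠ r := by rintro rfl; exact hrl ht1
                have hex : ∃ t, I t l ∧ I t m := ⟨t, ht1, ht2⟩
                refine ⟨.fl t l ht1, ⟨rfl, hpt⟩, by simp [FD, hlm, hpr, hpm, hrl, ht2, htr, hex], ?_⟩
                rintro (z | ⟨z, k, hz⟩) hadj hzy
                · simp only [adj_fl_pt] at hadj
                  subst hadj
                  simp [FD, hpr, hpm, hrl, hlm, hex]
                · simp only [adj_fl_fl] at hadj
                  obtain ⟨rfl, hpz⟩ := hadj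
                  have hzt : z ≠ t := by rintro rfl; exact hzy rfl
                  have hzm : ¬ I z m := fun hzm => hzt (hI.eq_pt hlm hz ht1 hzm ht2)
                  have hzr : z ≠ r := by rintro rfl; exact hrl hz
                  simp [FD, hlm, hpr, hpm, hrl, hzm, hzr, hex]
              · refine ⟨.pt p, rfl, by simp [FD, hlm, hpr, hpm, hrl, hex], ?_⟩
                rintro (z | ⟨z, k, hz⟩) hadj hzy
                · simp only [adj_fl_pt] at hadj
                  subst hadj
                  exact absurd rfl hzy
                · simp only [adj_fl_fl] at hadj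
                  obtain ⟨rfl, hpz⟩ := hadj
                  have hzm : ¬ I z m := fun hzm => hex ⟨z, hz, hzm⟩
                  have hzr : z ≠ r := by rintro rfl; exact hrl hz
                  simp [FD, hlm, hpr, hpm, hrl, hzm, hzr, hex]

/-- The flag graph of a linear space is geodetic. -/
theorem isGeodetic_flagGraph (hI : Linear I) [Nonempty P] : IsGeodetic (flagGraph I) :=
  haveI : Nonempty (FV I) := ⟨.pt (Classical.arbitrary P)⟩
  (descent hI).isGeodetic

theorem dist_flagGraph_le (hI : Linear I) (x v : FV I) : (flagGraph I).dist x v ≤ 5 := by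
  rw [(descent hI).dist_eq]
  exact FD_le x v

/-- Reachability avoiding a vertex. -/
def RA {V : Type*} (G : SimpleGraph V) (x a b : V) : Prop :=
  ∃ (ha : a ≠ x) (hb : b ≠ x), (G.induce {y | y ≠ x}).Reachable ⟨a, ha⟩ ⟨b, hb⟩

theorem RA.refl {V : Type*} {G : SimpleGraph V} {x a : V} (h : a ≠ x) : RA G x a a :=
  ⟨h, h, Reachable.refl _⟩

theorem RA.symm {V : Type*} {G : SimpleGraph V} {x a b : V} (h : RA G x a b) : RA G x b a := by
  obtain ⟨h1, h2, h3⟩ := h
  exact ⟨h2, h1, h3.symm⟩

theorem RA.trans {V : Type*} {G : SimpleGraph V} {x a b c : V} (h : RA G x a b)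
    (h' : RA G x b c) : RA G x a c := by
  obtain ⟨h1, h2, h3⟩ := h
  obtain ⟨h4, h5, h6⟩ := h'
  exact ⟨h1, h5, h3.trans h6⟩

theorem RA.adj {V : Type*} {G : SimpleGraph V} {x a b : V} (ha : a ≠ x) (hb : b ≠ x)
    (h : G.Adj a b) : RA G x a b :=
  ⟨ha, hb, Adj.reachable (by simpa using h)⟩

theorem connected_of_RA {V : Type*} {G : SimpleGraph V} {x c : V} (hc : c ≠ x)
    (h : ∀ z, z ≠ x → RA G x z c) : (G.induce {y | y ≠ x}).Connected := by
  have : Nonempty {y : V | y ≠ x} := ⟨⟨c, hc⟩⟩
  refine ⟨fun a b => ?_⟩
  obtain ⟨_, _, h1⟩ := h a.1 a.2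
  obtain ⟨_, _, h2⟩ := h b.1 b.2
  exact h1.trans h2.symm

/-- The flag graph of a linear space in which each line has two points and each point is on two
lines is two-connected. -/
theorem isTwoConnected_flagGraph (hI : Linear I) (h3 : ∃ p q : P, p ≠ q)
    (hP : ∀ p : P, ∀ l : L, ∃ m, m ≠ l ∧ I p m) (hL : ∀ (l : L) (p : P), ∃ q, q ≠ p ∧ I q l) :
    IsTwoConnected (flagGraph I) := by
  obtain ⟨p₀, q₀, hpq₀⟩ := h3
  refine ⟨?_, ?_⟩
  · obtain ⟨l, ⟨hl1, hl2⟩, -⟩ := hI p₀ q₀ hpq₀
    exact ⟨.pt p₀, .pt q₀, .fl p₀ l hl1, by simpa using hpq₀, by simp, by simp⟩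
  · intro x
    -- two points are joined by a path through their line if it avoids `x`
    have key : ∀ (p q : P) (l : L) (hp : I p l) (hq : I q l) (_ : FV.pt (I := I) p ≠ x)
        (_ : FV.pt (I := I) q ≠ x) (_ : FV.fl p l hp ≠ x) (_ : FV.fl q l hq ≠ x),
        RA (flagGraph I) x (.pt p) (.pt q) := by
      intro p q l hp hq h1 h2 h3 h4
      by_cases hpq : p = q
      · subst hpq; exact RA.refl h1
      · exact (RA.adj h1 h3 (by simp)).trans
          ((RA.adj h3 h4 (by simp [hpq])).trans (RA.adj h4 h2 (by simp)))
    rcases x with x | ⟨x, lx, hx⟩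
    · -- a point is deleted
      obtain ⟨m, -, hm⟩ := hP x (hI p₀ q₀ hpq₀).choose
      obtain ⟨c, hcx, hcm⟩ := hL m x
      have hpts : ∀ p : P, p ≠ x → RA (flagGraph I) (.pt x) (.pt p) (.pt c) := by
        intro p hp
        by_cases hpc : p = c
        · subst hpc; exact RA.refl (by simpa using hp)
        · obtain ⟨l, ⟨hl1, hl2⟩, -⟩ := hI p c hpc
          exact key p c l hl1 hl2 (by simpa using hp) (by simpa using hcx) (by simp) (by simp)
      refine connected_of_RA (c := .pt c) (by simpa using hcx) ?_
      rintro (z | ⟨z, l, hz⟩) hzx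
      · exact hpts z (by simpa using hzx)
      · by_cases hzx' : z = x
        · subst hzx'
          obtain ⟨q, hqz, hql⟩ := hL l z
          exact (RA.adj hzx (b := .fl q l hql) (by simp) (by simp [hqz.symm])).trans
            ((RA.adj (by simp) (by simpa using hqz) (by simp)).trans (hpts q hqz))
        · exact (RA.adj hzx (b := .pt z) (by simpa using hzx') (by simp)).trans (hpts z hzx')
    · -- a flag is deleted
      obtain ⟨m, hml, hxm⟩ := hP x lx
      obtain ⟨c, hcx, hcm⟩ := hL m x
      have hcl : ¬ I c lx := fun h => hcx (hI.eq_pt hml hcm hxm h hx)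
      have hpts : ∀ p : P, RA (flagGraph I) (.fl x lx hx) (.pt p) (.pt c) := by
        intro p
        by_cases hpc : p = c
        · subst hpc; exact RA.refl (by simp)
        · obtain ⟨l, ⟨hl1, hl2⟩, -⟩ := hI p c hpc
          have hll : l ≠ lx := by rintro rfl; exact hcl hl2
          exact key p c l hl1 hl2 (by simp) (by simp) (by simp [hll]) (by simp [hll])
      refine connected_of_RA (c := .pt c) (by simp) ?_
      rintro (z | ⟨z, l, hz⟩) hzx
      · exact hpts z
      · exact (RA.adj hzx (b := .pt z) (by simp) (by simp)).trans (hpts z)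

end Pool.Agent.N578.Geo
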