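import Pool.Agent.N578.Geo.Code
import Pool.Agent.NPC.Num

/-!
# The reduction is computable in polynomial time
-/

set_option autoImplicit false

namespace Pool.Agent.NPC.N578.Geo

open Pool.Agent.N578.Geo

variable {α : Type} [TEnc α]

theorem poly_ent {M : α → List (List Bool)} {i j : α → ℕ} (hM : Poly M) (hi : Poly i)
    (hj : Poly j) : Poly (fun a => ent (M a) (i a) (j a)) :=
  Poly.getD (Poly.getD hM hi (Poly.const _)) hj (Poly.const _)

theorem poly_prs {β : Type} [TEnc β] {l : α → List β} (hl : Poly l) :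
    Poly (fun a => prs (l a)) := by
  unfold prs
  exact Poly.flatMap (F := fun a p => (l a).map fun q => (p, q)) hl
    (Poly.map (l := fun x : α × β => l x.1) (F := fun x q => (x.2, q))
      (hl.comp (Poly.fst Poly.id)) (Poly.pair (Poly.snd (Poly.fst Poly.id)) (Poly.snd Poly.id)))

theorem poly_ltB {p q : α → ℕ × ℕ} (hp : Poly p) (hq : Poly q) :
    Poly (fun a => ltB (p a) (q a)) := by
  unfold ltB
  exact Poly.or (Poly.decide_lt (Poly.fst hp) (Poly.fst hq))
    (Poly.and (Poly.decide_eq (Poly.fst hp) (Poly.fst hq))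
      (Poly.decide_lt (Poly.snd hp) (Poly.snd hq)))

theorem poly_eb {p : α → ℕ × ℕ} (hp : Poly p) : Poly (fun a => eb (p a)) := by
  unfold eb
  exact Poly.cons (Poly.pair (Poly.fst hp) (Poly.fst hp))
    (Poly.cons (Poly.pair (Poly.fst hp) (Poly.snd hp))
      (Poly.cons (Poly.pair (Poly.snd hp) (Poly.fst hp))
        (Poly.cons (Poly.pair (Poly.snd hp) (Poly.snd hp)) (Poly.const []))))

theorem poly_vb {m i : α → ℕ} (hm : Poly m) (hi : Poly i) : Poly (fun a => vb (m a) (i a)) := by
  unfold vb
  exact Poly.cons (Poly.pair hi hi) (Poly.cons (Poly.pair hi hm)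
    (Poly.cons (Poly.pair hm hi) (Poly.const [])))

theorem poly_ebs {M : α → List (List Bool)} (hM : Poly M) : Poly (fun a => ebs (M a)) := by
  unfold ebs
  refine Poly.map (F := fun _ p => eb p) ?_ (poly_eb (Poly.snd Poly.id))
  refine Poly.filter (p := fun a p => decide (p.1 < p.2) && ent (M a) p.1 p.2)
    (poly_prs (Poly.range_length hM)) ?_
  exact Poly.and (Poly.decide_lt (Poly.fst (Poly.snd Poly.id)) (Poly.snd (Poly.snd Poly.id)))
    (poly_ent (hM.comp (Poly.fst Poly.id)) (Poly.fst (Poly.snd Poly.id))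
      (Poly.snd (Poly.snd Poly.id)))

theorem poly_blocksC {M : α → List (List Bool)} (hM : Poly M) :
    Poly (fun a => blocksC (M a)) := by
  unfold blocksC
  refine Poly.append (poly_ebs hM) (Poly.append ?_ ?_)
  · exact Poly.map (F := fun a i => vb (M a).length i) (Poly.range_length hM)
      (poly_vb ((Poly.length hM).comp (Poly.fst Poly.id)) (Poly.snd Poly.id))
  · exact Poly.map (F := fun a i => vb ((M a).length + 1) i) (Poly.range_length hM)
      (poly_vb ((Poly.succ (Poly.length hM)).comp (Poly.fst Poly.id)) (Poly.snd Poly.id))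

theorem poly_mem {p : α → ℕ × ℕ} {l : α → List (ℕ × ℕ)} (hp : Poly p) (hl : Poly l) :
    Poly (fun a => decide (p a ∈ l a)) :=
  (Poly.decide_mem hp hl).congr fun a => by congr

theorem poly_inBlk {B : α → List (List (ℕ × ℕ))} {p q : α → ℕ × ℕ} (hB : Poly B) (hp : Poly p)
    (hq : Poly q) : Poly (fun a => inBlk (B a) (p a) (q a)) := by
  unfold inBlk
  exact Poly.any (p := fun a T => decide (p a ∈ T) && decide (q a ∈ T)) hB
    (Poly.and (poly_mem (hp.comp (Poly.fst Poly.id)) (Poly.snd Poly.id))
      (poly_mem (hq.comp (Poly.fst Poly.id)) (Poly.snd Poly.id)))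

theorem poly_ptsC {M : α → List (List Bool)} (hM : Poly M) : Poly (fun a => ptsC (M a)) := by
  unfold ptsC
  exact poly_prs (UPoly.range ((UPoly.length hM).add (UPoly.const 3)))

theorem poly_pairC {M : α → List (List Bool)} (hM : Poly M) : Poly (fun a => pairC (M a)) := by
  unfold pairC
  refine Poly.map (F := fun _ (pq : (ℕ × ℕ) × (ℕ × ℕ)) => [pq.1, pq.2]) ?_
    (Poly.cons (Poly.fst (Poly.snd Poly.id)) (Poly.cons (Poly.snd (Poly.snd Poly.id))
      (Poly.const [])))
  refine Poly.filter (p := fun a pq => ltB pq.1 pq.2 && !(inBlk (blocksC (M a)) pq.1 pq.2))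
    (poly_prs (poly_ptsC hM)) ?_
  exact Poly.and (poly_ltB (Poly.fst (Poly.snd Poly.id)) (Poly.snd (Poly.snd Poly.id)))
    (Poly.not (poly_inBlk ((poly_blocksC hM).comp (Poly.fst Poly.id))
      (Poly.fst (Poly.snd Poly.id)) (Poly.snd (Poly.snd Poly.id))))

theorem poly_linesC {M : α → List (List Bool)} (hM : Poly M) : Poly (fun a => linesC (M a)) := by
  unfold linesC
  exact Poly.append (poly_blocksC hM) (poly_pairC hM)

theorem poly_flags {β : Type} [TEnc β] : Poly (fun l : List β => l.map fun p => (p, l)) :=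
  Poly.map (l := fun l : List β => l) (F := fun l p => (p, l)) Poly.id
    (Poly.pair (Poly.snd Poly.id) (Poly.fst Poly.id))

theorem poly_vsC {M : α → List (List Bool)} (hM : Poly M) : Poly (fun a => vsC (M a)) := by
  have h1 : Poly (fun a => (ptsC (M a)).map fun p => ((p, []) : Cd)) :=
    Poly.map (l := fun a => ptsC (M a)) (F := fun _ p => ((p, []) : Cd)) (poly_ptsC hM)
      (Poly.pair (Poly.snd Poly.id) (Poly.const []))
  have h2 : Poly (fun a => (linesC (M a)).flatMap fun l => l.map fun p => ((p, l) : Cd)) :=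
    Poly.flatMap (l := fun a => linesC (M a)) (F := fun _ l => l.map fun p => ((p, l) : Cd))
      (poly_linesC hM) (poly_flags.comp (Poly.snd Poly.id))
  exact Poly.append h1 h2

theorem poly_adC {x y : α → Cd} (hx : Poly x) (hy : Poly y) : Poly (fun a => adC (x a) (y a)) := by
  unfold adC
  exact Poly.or (Poly.and (Poly.decide_eq (Poly.fst hx) (Poly.fst hy))
      (Poly.xor (Poly.decide_eq (Poly.snd hx) (Poly.const []))
        (Poly.decide_eq (Poly.snd hy) (Poly.const []))))
    (Poly.and (Poly.not (Poly.decide_eq (Poly.snd hx) (Poly.const [])))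
      (Poly.and (Poly.decide_eq (Poly.snd hx) (Poly.snd hy))
        (Poly.not (Poly.decide_eq (Poly.fst hx) (Poly.fst hy)))))

theorem poly_matC {M : α → List (List Bool)} (hM : Poly M) : Poly (fun a => matC (M a)) := by
  unfold matC
  refine Poly.map (F := fun a u => (vsC (M a)).map fun w => adC u w) (poly_vsC hM) ?_
  exact Poly.map (l := fun x : α × Cd => vsC (M x.1)) (F := fun x w => adC x.2 w)
    ((poly_vsC hM).comp (Poly.fst Poly.id))
    (poly_adC (Poly.snd (Poly.fst Poly.id)) (Poly.snd Poly.id))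

end Pool.Agent.NPC.N578.Geo
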