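import Pool.Agent.N578.Geo.Flag

/-!
# From graphs to linear spaces and back
-/

set_option autoImplicit false

namespace Pool.Agent.N578.Geo

open SimpleGraph

section General

variable {P L P' L' : Type*} {I : P → L → Prop} {I' : P' → L' → Prop}

/-- Isomorphic incidence structures have isomorphic flag graphs. -/
def flagIso (e : P ≃ P') (f : L ≃ L') (h : ∀ p l, I p l ↔ I' (e p) (f l)) :
    flagGraph I ≃g flagGraph I' where
  toFun
    | .pt p => .pt (e p)
    | .fl p l hp => .fl (e p) (f l) ((h p l).1 hp)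
  invFun
    | .pt p => .pt (e.symm p)
    | .fl p l hp => .fl (e.symm p) (f.symm l) ((h _ _).2 (by simpa using hp))
  left_inv := by rintro (p | ⟨p, l, hp⟩) <;> simp
  right_inv := by rintro (p | ⟨p, l, hp⟩) <;> simp
  map_rel_iff' := by
    rintro (p | ⟨p, l, hp⟩) (q | ⟨q, m, hq⟩) <;> simp

/-- The lines of the linear space generated by a family of blocks: the blocks, and the pairs which
are not in a block. -/
def lines (B : Set (Set P)) : Set (Set P) :=
  {S | S ∈ B ∨ ∃ p q, p ≠ q ∧ S = {p, q} ∧ ∀ T ∈ B, ¬ (p ∈ T ∧ q ∈ T)}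

/-- Incidence of the generated linear space. -/
def inc (B : Set (Set P)) : P → {S : Set P // S ∈ lines B} → Prop := fun p S => p ∈ S.1

/-- Two different points are in at most one block. -/
def IsPLS (B : Set (Set P)) : Prop :=
  ∀ S ∈ B, ∀ T ∈ B, ∀ p q, p ≠ q → p ∈ S → q ∈ S → p ∈ T → q ∈ T → S = T

theorem linear_inc {B : Set (Set P)} (h : IsPLS B) : Linear (inc B) := by
  intro p q hpq
  by_cases hex : ∃ T ∈ B, p ∈ T ∧ q ∈ T
  · obtain ⟨T, hT, hp, hq⟩ := hex
    refine ⟨⟨T, Or.inl hT⟩, ⟨hp, hq⟩, ?_⟩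
    rintro ⟨S, hS⟩ ⟨h1, h2⟩
    apply Subtype.ext
    rcases hS with hS | ⟨a, b, hab, rfl, hS⟩
    · exact h S hS T hT p q hpq h1 h2 hp hq
    · exfalso
      simp only [inc, Set.mem_insert_iff, Set.mem_singleton_iff] at h1 h2
      rcases h1 with rfl | rfl <;> rcases h2 with rfl | rfl
      · exact hpq rfl
      · exact hS T hT ⟨hp, hq⟩
      · exact hS T hT ⟨hq, hp⟩
      · exact hpq rfl
  · push Not at hex
    refine ⟨⟨{p, q}, Or.inr ⟨p, q, hpq, rfl, fun T hT hh => hex T hT hh.1 hh.2⟩⟩,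
      ⟨by simp [inc], by simp [inc]⟩, ?_⟩
    rintro ⟨S, hS⟩ ⟨h1, h2⟩
    apply Subtype.ext
    rcases hS with hS | ⟨a, b, hab, rfl, hS⟩
    · exact absurd h2 (hex S hS h1)
    · simp only [inc, Set.mem_insert_iff, Set.mem_singleton_iff] at h1 h2
      rcases h1 with rfl | rfl <;> rcases h2 with rfl | rfl
      · exact absurd rfl hpq
      · rfl
      · exact Set.pair_comm _ _
      · exact absurd rfl hpq

theorem mem_lines_image {B : Set (Set P)} {B' : Set (Set P')} (e : P ≃ P')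
    (h : ∀ S, S ∈ B → e '' S ∈ B') (h' : ∀ S, S ∈ B' → e.symm '' S ∈ B) {S : Set P}
    (hS : S ∈ lines B) : e '' S ∈ lines B' := by
  rcases hS with hS | ⟨p, q, hpq, rfl, hS⟩
  · exact Or.inl (h S hS)
  · refine Or.inr ⟨e p, e q, by simpa using hpq, by rw [Set.image_pair], ?_⟩
    rintro T hT ⟨h1, h2⟩
    exact hS _ (h' T hT) ⟨⟨_, h1, by simp⟩, ⟨_, h2, by simp⟩⟩

/-- A bijection of the points mapping blocks to blocks gives an isomorphism of the flag graphs. -/
noncomputable def blockIso {B : Set (Set P)} {B' : Set (Set P')} (e : P ≃ P')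
    (h : ∀ S, S ∈ B → e '' S ∈ B') (h' : ∀ S, S ∈ B' → e.symm '' S ∈ B) :
    flagGraph (inc B) ≃g flagGraph (inc B') :=
  flagIso e
    { toFun := fun S => ⟨e '' S.1, mem_lines_image e h h' S.2⟩
      invFun := fun S => ⟨e.symm '' S.1, mem_lines_image e.symm h' (by simpa using h) S.2⟩
      left_inv := fun S => by
        apply Subtype.ext
        simp
      right_inv := fun S => by
        apply Subtype.ext
        simp }
    (fun p S => by simp [inc])

instance finite_FV [Finite P] [Finite L] : Finite (FV I) := by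
  refine Finite.of_injective (β := P ⊕ (P × L)) (fun x => match x with
    | .pt p => Sum.inl p
    | .fl p l _ => Sum.inr (p, l)) ?_
  rintro (p | ⟨p, l, hp⟩) (q | ⟨q, m, hq⟩) h
  · simp only [Sum.inl.injEq] at h; rw [h]
  · simp at h
  · simp at h
  · simp only [Sum.inr.injEq, Prod.mk.injEq] at h
    obtain ⟨rfl, rfl⟩ := h
    rfl

/-- Number of neighbours. -/
noncomputable def nc {W : Type*} (Γ : SimpleGraph W) (x : W) : ℕ := (Γ.neighborSet x).ncard

theorem nc_iso {W W' : Type*} {Γ : SimpleGraph W} {Γ' : SimpleGraph W'} (φ : Γ ≃g Γ') (x : W) :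
    nc Γ' (φ x) = nc Γ x := by
  unfold nc
  have : Γ'.neighborSet (φ x) = φ '' Γ.neighborSet x := by
    ext y
    simp only [mem_neighborSet, Set.mem_image]
    constructor
    · intro h
      refine ⟨φ.symm y, ?_, by simp⟩
      rw [← φ.map_adj_iff]
      simpa using h
    · rintro ⟨z, hz, rfl⟩
      exact φ.map_adj_iff.2 hz
  rw [this, Set.ncard_image_of_injective _ φ.injective]

theorem fl_inj {p q : P} {l m : L} {h : I p l} {h' : I q m} (e : FV.fl p l h = FV.fl q m h') :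
    p = q ∧ l = m := by
  injection e with h1 h2
  exact ⟨h1, h2⟩

theorem nc_fl (p : P) (l : L) (h : I p l) : nc (flagGraph I) (.fl p l h) = {q | I q l}.ncard := by
  classical
  unfold nc
  symm
  refine Set.ncard_congr (fun q hq => if q = p then .pt p else .fl q l hq) ?_ ?_ ?_
  · intro q hq
    rw [mem_neighborSet]
    by_cases hqp : q = p
    · simp [hqp]
    · simp [hqp, Ne.symm hqp]
  · intro q r hq hr heq
    split_ifs at heq with h1 h2 h2
    · rw [h1, h2]
    · simpa using heq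
  · rintro (q | ⟨q, m, hq⟩) hadj
    · simp only [mem_neighborSet, adj_fl_pt] at hadj
      exact ⟨p, h, by simp [hadj]⟩
    · simp only [mem_neighborSet, adj_fl_fl] at hadj
      obtain ⟨rfl, hne⟩ := hadj
      exact ⟨q, hq, by simp [Ne.symm hne]⟩

/-- The vertices with at least five neighbours and at least two neighbours which have exactly three
neighbours. -/
def VP {W : Type*} (Γ : SimpleGraph W) (x : W) : Prop :=
  5 ≤ nc Γ x ∧ ∃ f g, f ≠ g ∧ Γ.Adj x f ∧ Γ.Adj x g ∧ nc Γ f = 3 ∧ nc Γ g = 3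

/-- Joined by a path of length three the inner vertices of which have four neighbours. -/
def EP {W : Type*} (Γ : SimpleGraph W) (x y : W) : Prop :=
  ∃ f g, Γ.Adj x f ∧ Γ.Adj f g ∧ Γ.Adj g y ∧ nc Γ f = 4 ∧ nc Γ g = 4

theorem VP_iso {W W' : Type*} {Γ : SimpleGraph W} {Γ' : SimpleGraph W'} (φ : Γ ≃g Γ') {x : W}
    (h : VP Γ x) : VP Γ' (φ x) := by
  obtain ⟨h1, f, g, h2, h3, h4, h5, h6⟩ := h
  exact ⟨by rwa [nc_iso], φ f, φ g, by simpa using h2, φ.map_adj_iff.2 h3, φ.map_adj_iff.2 h4,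
    by rwa [nc_iso], by rwa [nc_iso]⟩

theorem EP_iso {W W' : Type*} {Γ : SimpleGraph W} {Γ' : SimpleGraph W'} (φ : Γ ≃g Γ') {x y : W}
    (h : EP Γ x y) : EP Γ' (φ x) (φ y) := by
  obtain ⟨f, g, h1, h2, h3, h4, h5⟩ := h
  exact ⟨φ f, φ g, φ.map_adj_iff.2 h1, φ.map_adj_iff.2 h2, φ.map_adj_iff.2 h3,
    by rwa [nc_iso], by rwa [nc_iso]⟩

theorem EP_iso_iff {W W' : Type*} {Γ : SimpleGraph W} {Γ' : SimpleGraph W'} (φ : Γ ≃g Γ')
    {x y : W} : EP Γ' (φ x) (φ y) ↔ EP Γ x y := by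
  refine ⟨fun h => ?_, EP_iso φ⟩
  have := EP_iso φ.symm h
  simpa using this

end General

section Graph

variable {V W : Type*}

/-- The points of the linear space of a graph with vertex set `V`. -/
abbrev Pt (V : Type*) : Type _ := (V ⊕ Fin 3) × (V ⊕ Fin 3)

/-- The block of an edge. -/
def EB (i j : V) : Set (Pt V) :=
  {p | (p.1 = Sum.inl i ∨ p.1 = Sum.inl j) ∧ (p.2 = Sum.inl i ∨ p.2 = Sum.inl j)}

/-- The private blocks of a vertex. -/
def VB (i : V) (k : Fin 3) : Set (Pt V) :=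
  {p | p = (Sum.inl i, Sum.inl i) ∨ p = (Sum.inl i, Sum.inr k) ∨ p = (Sum.inr k, Sum.inl i)}

/-- The blocks of the linear space of a graph. -/
def blocks (G : SimpleGraph V) : Set (Set (Pt V)) :=
  {S | (∃ i j, G.Adj i j ∧ S = EB i j) ∨ ∃ i, S = VB i 0 ∨ S = VB i 1}

theorem EB_comm (i j : V) : EB i j = EB j i := by
  ext p
  simp only [EB, Set.mem_ofPred_eq]
  tauto

/-- The graph of the reduction. -/
abbrev FG (G : SimpleGraph V) : SimpleGraph (FV (inc (blocks G))) := flagGraph (inc (blocks G))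

theorem mem_EB_diag {i j k : V} : ((Sum.inl k, Sum.inl k) : Pt V) ∈ EB i j ↔ k = i ∨ k = j := by
  simp [EB]

theorem EB_eq {i j k l : V} {p q : Pt V} (hpq : p ≠ q) (h1 : p ∈ EB i j) (h2 : q ∈ EB i j)
    (h3 : p ∈ EB k l) (h4 : q ∈ EB k l) : EB i j = EB k l := by
  obtain ⟨p1, p2⟩ := p
  obtain ⟨q1, q2⟩ := q
  simp only [EB, Set.mem_ofPred_eq] at h1 h2 h3 h4
  have key : (i = k ∧ j = l) ∨ (i = l ∧ j = k) := by
    obtain ⟨a1, a2⟩ := h1
    obtain ⟨b1, b2⟩ := h2
    obtain ⟨c1, c2⟩ := h3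
    obtain ⟨d1, d2⟩ := h4
    rcases a1 with rfl | rfl <;> rcases a2 with rfl | rfl <;> rcases b1 with rfl | rfl <;>
      rcases b2 with rfl | rfl <;> simp_all <;> grind
  rcases key with ⟨rfl, rfl⟩ | ⟨rfl, rfl⟩
  · rfl
  · exact EB_comm _ _

theorem VB_eq {i j : V} {k : Fin 3} {p q : Pt V} (hpq : p ≠ q) (h1 : p ∈ VB i k) (h2 : q ∈ VB i k)
    (h3 : p ∈ VB j k) (h4 : q ∈ VB j k) : VB i k = VB j k := by
  have : i = j := by
    obtain ⟨p1, p2⟩ := p
    obtain ⟨q1, q2⟩ := q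
    simp only [VB, Set.mem_ofPred_eq, Prod.mk.injEq, ne_eq] at *
    grind
  rw [this]

theorem isPLS_blocks (G : SimpleGraph V) : IsPLS (blocks G) := by
  intro S hS T hT p q hpq h1 h2 h3 h4
  rcases hS with ⟨i, j, hij, rfl⟩ | ⟨i, rfl | rfl⟩ <;>
    rcases hT with ⟨k, l, hkl, rfl⟩ | ⟨k, rfl | rfl⟩
  case inl.inl => exact EB_eq hpq h1 h2 h3 h4
  case inr.inl.inr.inl => exact VB_eq hpq h1 h2 h3 h4
  case inr.inr.inr.inr => exact VB_eq hpq h1 h2 h3 h4
  all_goals
    exfalso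
    obtain ⟨p1, p2⟩ := p
    obtain ⟨q1, q2⟩ := q
    simp only [EB, VB, Set.mem_ofPred_eq, Prod.mk.injEq, ne_eq] at *
    grind

/-- The point of a vertex. -/
def dg (i : V) : Pt V := (Sum.inl i, Sum.inl i)

theorem EB_ncard {i j : V} (h : i ≠ j) : (EB i j).ncard = 4 := by
  classical
  have : EB i j = (({Sum.inl i, Sum.inl j} : Finset (V ⊕ Fin 3)) ×ˢ
      ({Sum.inl i, Sum.inl j} : Finset (V ⊕ Fin 3)) : Finset (Pt V)) := by
    ext p
    simp [EB]
  rw [this, Set.ncard_coe_finset, Finset.card_product, Finset.card_pair (by simpa using h)]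

theorem VB_ncard (i : V) (k : Fin 3) : (VB i k).ncard = 3 := by
  classical
  have : VB i k = (({(Sum.inl i, Sum.inl i), (Sum.inl i, Sum.inr k), (Sum.inr k, Sum.inl i)} :
      Finset (Pt V)) : Set (Pt V)) := by
    ext p
    simp [VB]
  rw [this, Set.ncard_coe_finset, Finset.card_insert_of_notMem (by simp),
    Finset.card_pair (by simp)]

theorem extra_notMem {G : SimpleGraph V} {S : Set (Pt V)} (hS : S ∈ blocks G) (a b : Fin 3) :
    ((Sum.inr a, Sum.inr b) : Pt V) ∉ S := by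
  rcases hS with ⟨i, j, hij, rfl⟩ | ⟨i, rfl | rfl⟩ <;> simp [EB, VB]

/-- The pair of a point and an extra point is a line. -/
theorem extra_line {G : SimpleGraph V} {p : Pt V} {a b : Fin 3} (h : p ≠ (Sum.inr a, Sum.inr b)) :
    ({p, (Sum.inr a, Sum.inr b)} : Set (Pt V)) ∈ lines (blocks G) :=
  Or.inr ⟨p, _, h, rfl, fun _ hT hh => extra_notMem hT a b hh.2⟩

variable [Finite V] [Finite W]

theorem five_le_nc {G : SimpleGraph V} (p : Pt V) : 5 ≤ nc (FG G) (.pt p) := by
  classical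
  let X : Set (Fin 3 × Fin 3) := {c | p ≠ (Sum.inr c.1, Sum.inr c.2)}
  have h1 : 5 ≤ X.ncard := by
    have h2 : ({(0, 0), (0, 1), (0, 2), (1, 0), (1, 1), (1, 2)} : Set (Fin 3 × Fin 3)).ncard = 6 := by
      rw [show ({(0, 0), (0, 1), (0, 2), (1, 0), (1, 1), (1, 2)} : Set (Fin 3 × Fin 3)) =
        (({(0, 0), (0, 1), (0, 2), (1, 0), (1, 1), (1, 2)} : Finset (Fin 3 × Fin 3)) :
          Set (Fin 3 × Fin 3)) by simp, Set.ncard_coe_finset]
      decide
    have h3 : Xᶜ.ncard ≤ 1 := by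
      rw [Set.ncard_le_one (Set.toFinite _)]
      intro c hc d hd
      simp only [X, Set.mem_compl_iff, Set.mem_ofPred_eq, ne_eq, not_not] at hc hd
      rw [hc] at hd
      simp only [Prod.mk.injEq, Sum.inr.injEq] at hd
      exact Prod.ext hd.1 hd.2
    have h4 := Set.ncard_add_ncard_compl X
    have h5 : Nat.card (Fin 3 × Fin 3) = 9 := by simp
    omega
  refine h1.trans ?_
  unfold nc
  refine Set.ncard_le_ncard_of_injOn
    (fun c => if h : p ≠ (Sum.inr c.1, Sum.inr c.2) then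
      FV.fl p ⟨{p, (Sum.inr c.1, Sum.inr c.2)}, extra_line h⟩ (by simp [inc]) else FV.pt p) ?_ ?_
    (Set.toFinite _)
  · intro c hc
    have hc : p ≠ (Sum.inr c.1, Sum.inr c.2) := hc
    simp only [hc, ne_eq, not_false_eq_true, dif_pos, mem_neighborSet]
    rfl
  · intro c hc d hd heq
    have hc : p ≠ (Sum.inr c.1, Sum.inr c.2) := hc
    have hd : p ≠ (Sum.inr d.1, Sum.inr d.2) := hd
    simp only [hc, hd, ne_eq, not_false_eq_true, dif_pos] at heq
    have h2 : ({p, (Sum.inr c.1, Sum.inr c.2)} : Set (Pt V)) = {p, (Sum.inr d.1, Sum.inr d.2)} :=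
      congrArg Subtype.val (fl_inj heq).2
    have : ((Sum.inr c.1, Sum.inr c.2) : Pt V) ∈ ({p, (Sum.inr d.1, Sum.inr d.2)} : Set (Pt V)) := by
      rw [← h2]; simp
    simp only [Set.mem_insert_iff, Set.mem_singleton_iff, hc.symm, false_or, Prod.mk.injEq,
      Sum.inr.injEq] at this
    exact Prod.ext this.1 this.2

end Graph

end Pool.Agent.N578.Geo
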